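import Mathlib
import Pool.Agent.FB.Defs
import Pool.Agent.FB.Iface

/-!
# LAT module, definitions (MP_15d50e_gt)

`IsKer κ F R`: the first Bloch kernel `F = M 1` and its regular part `R` at the origin.
`eCo R j`: the lattice constants, `mKer F n`: the kernels `M n`.
`gLoc P z = log|z| - (P z + conj (P (-z)))/2`, `P` a primitive of `-R`, and `gam`.
-/

open Complex Set Metric
open scoped ComplexConjugate Real

namespace FB.Lat

/-- The first Bloch kernel `F` with regular part `R` at the origin. -/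
structure IsKer (κ : ℂ) (F R : ℂ → ℂ) : Prop where
  diff : DifferentiableOn ℂ F (US 0)
  bloch : ∀ z ∈ US 0, ∀ p : ℤ × ℤ, F (z + lp p) = chi κ p * F z
  R_diff : DifferentiableOn ℂ R (ball 0 1)
  eq : ∀ z : ℂ, 0 < ‖z‖ → ‖z‖ < 1 → F z = z⁻¹ + R z

/-- Lattice constants `E_j = - R^{(j-1)}(0)/(j-1)!`, so that `R z = - Σ_{m ≥ 0} E_{m+1} z^m`. -/
noncomputable def eCo (R : ℂ → ℂ) (j : ℕ) : ℂ :=
  if j = 0 then 0 else -(((j - 1).factorial : ℂ)⁻¹ * iteratedDeriv (j - 1) R 0)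

/-- Kernels `M_n = (-1)^{n-1} F^{(n-1)}/(n-1)!`. -/
noncomputable def mKer (F : ℂ → ℂ) (n : ℕ) (z : ℂ) : ℂ :=
  (-1) ^ (n - 1) * ((n - 1).factorial : ℂ)⁻¹ * iteratedDeriv (n - 1) F z

/-- A primitive of `-R` on the unit disc, vanishing at `0`. -/
structure IsPrim (R P : ℂ → ℂ) : Prop where
  zero : P 0 = 0
  deriv : ∀ z ∈ ball (0 : ℂ) 1, HasDerivAt P (-(R z)) z

/-- The logarithmic function on the punctured unit disc (without the constant). -/
noncomputable def gLoc (P : ℂ → ℂ) (z : ℂ) : ℂ :=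
  (Real.log ‖z‖ : ℂ) - (P z + conj (P (-z))) / 2

/-- The constant `γ`, real by definition. -/
noncomputable def gam (κ : ℂ) (P : ℂ → ℂ) : ℝ :=
  -(cexp (((κ.re / 2 : ℝ) : ℂ) * I) * gLoc P (-(1 / 2))).im / Real.sin (κ.re / 2)

end FB.Lat
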