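import Mathlib
import Pool.Agent.FB.Lat.Defs

/-!
# LAT module, elementary facts on the lattice `ℤ[i]` and the character (MP_15d50e_gt)
-/

open Complex Set Metric
open scoped ComplexConjugate Real

namespace FB.Lat

theorem lp_add (p q : ℤ × ℤ) : lp (p + q) = lp p + lp q := by
  simp [lp]; ring

theorem lp_neg (p : ℤ × ℤ) : lp (-p) = -lp p := by
  simp [lp]; ring

theorem lp_sub (p q : ℤ × ℤ) : lp (p - q) = lp p - lp q := by
  simp [lp]; ring

@[simp] theorem lp_zero : lp 0 = 0 := by simp [lp]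

@[simp] theorem lp_re (p : ℤ × ℤ) : (lp p).re = p.1 := by simp [lp]

@[simp] theorem lp_im (p : ℤ × ℤ) : (lp p).im = p.2 := by simp [lp]

theorem chi_add (κ : ℂ) (p q : ℤ × ℤ) : chi κ (p + q) = chi κ p * chi κ q := by
  simp only [chi, ← Complex.exp_add]
  congr 1
  push_cast
  simp only [Prod.fst_add, Prod.snd_add, Int.cast_add]
  ring

@[simp] theorem chi_zero (κ : ℂ) : chi κ 0 = 1 := by simp [chi]

theorem norm_chi (κ : ℂ) (p : ℤ × ℤ) : ‖chi κ p‖ = 1 := by
  rw [chi, Complex.norm_exp_ofReal_mul_I]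

theorem chi_ne (κ : ℂ) (p : ℤ × ℤ) : chi κ p ≠ 0 := by
  intro h
  have := norm_chi κ p
  rw [h] at this
  simp at this

theorem chi_neg (κ : ℂ) (p : ℤ × ℤ) : chi κ (-p) = conj (chi κ p) := by
  rw [chi, chi, ← Complex.exp_conj]
  congr 1
  simp only [map_mul, Complex.conj_ofReal, Complex.conj_I]
  push_cast
  simp only [Prod.fst_neg, Prod.snd_neg, Int.cast_neg]
  ring

theorem chi_mul_neg (κ : ℂ) (p : ℤ × ℤ) : chi κ p * chi κ (-p) = 1 := by
  rw [← chi_add]; simp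

theorem mem_US_zero {z : ℂ} : z ∈ US 0 ↔ ∀ p : ℤ × ℤ, z ≠ lp p := by
  constructor
  · intro h p hp
    have := h p
    simp [hp] at this
  · intro h p
    exact norm_pos_iff.mpr (sub_ne_zero.mpr (h p))

theorem US_zero_eq : US 0 = (range lp)ᶜ := by
  ext z
  rw [mem_US_zero]
  simp only [mem_compl_iff, mem_range, not_exists]
  exact ⟨fun h p hp => h p hp.symm, fun h p hp => h p hp.symm⟩

theorem isClosed_range_lp : IsClosed (range lp) := by
  have : range lp = Complex.re ⁻¹' (range ((↑) : ℤ → ℝ)) ∩ Complex.im ⁻¹' (range ((↑) : ℤ → ℝ)) := by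
    ext z
    constructor
    · rintro ⟨p, rfl⟩
      exact ⟨⟨p.1, by simp⟩, ⟨p.2, by simp⟩⟩
    · rintro ⟨⟨a, ha⟩, ⟨b, hb⟩⟩
      exact ⟨(a, b), Complex.ext (by simpa using ha) (by simpa using hb)⟩
  rw [this]
  have hc : IsClosed (range ((↑) : ℤ → ℝ)) := Int.isClosedEmbedding_coe_real.isClosed_range
  exact (hc.preimage Complex.continuous_re).inter (hc.preimage Complex.continuous_im)

theorem isOpen_US_zero : IsOpen (US 0) := by
  rw [US_zero_eq]
  exact isClosed_range_lp.isOpen_compl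

theorem US_zero_add {z : ℂ} (hz : z ∈ US 0) (p : ℤ × ℤ) : z + lp p ∈ US 0 := by
  rw [mem_US_zero] at *
  intro q hq
  exact hz (q - p) (by rw [lp_sub, ← hq]; ring)

theorem US_zero_sub {z : ℂ} (hz : z ∈ US 0) (p : ℤ × ℤ) : z - lp p ∈ US 0 := by
  have := US_zero_add hz (-p)
  rwa [lp_neg, ← sub_eq_add_neg] at this

theorem US_zero_neg {z : ℂ} (hz : z ∈ US 0) : -z ∈ US 0 := by
  rw [mem_US_zero] at *
  intro q hq
  exact hz (-q) (by rw [lp_neg, ← hq]; ring)

theorem one_le_norm_lp {p : ℤ × ℤ} (hp : p ≠ 0) : 1 ≤ ‖lp p‖ := by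
  have h : p.1 ≠ 0 ∨ p.2 ≠ 0 := by
    by_contra hcon
    push Not at hcon
    exact hp (Prod.ext hcon.1 hcon.2)
  rcases h with h | h
  · calc (1 : ℝ) ≤ |(p.1 : ℝ)| := by exact_mod_cast Int.one_le_abs h
      _ = |(lp p).re| := by simp
      _ ≤ ‖lp p‖ := Complex.abs_re_le_norm _
  · calc (1 : ℝ) ≤ |(p.2 : ℝ)| := by exact_mod_cast Int.one_le_abs h
      _ = |(lp p).im| := by simp
      _ ≤ ‖lp p‖ := Complex.abs_im_le_norm _

theorem mem_US_zero_of_norm {z : ℂ} (h0 : 0 < ‖z‖) (h1 : ‖z‖ < 1) : z ∈ US 0 := by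
  rw [mem_US_zero]
  intro p hp
  by_cases h : p = 0
  · subst h
    simp [hp] at h0
  · have := one_le_norm_lp h
    rw [← hp] at this
    linarith

/-- Nearest lattice point. -/
theorem exists_near (z : ℂ) : ∃ p : ℤ × ℤ, |(z - lp p).re| ≤ 1 / 2 ∧ |(z - lp p).im| ≤ 1 / 2 ∧
    ‖z - lp p‖ ≤ 3 / 4 := by
  refine ⟨(round z.re, round z.im), ?_, ?_, ?_⟩
  · simpa using abs_sub_round z.re
  · simpa using abs_sub_round z.im
  · have h1 : |(z - lp (round z.re, round z.im)).re| ≤ 1 / 2 := by simpa using abs_sub_round z.re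
    have h2 : |(z - lp (round z.re, round z.im)).im| ≤ 1 / 2 := by simpa using abs_sub_round z.im
    set w := z - lp (round z.re, round z.im)
    have h3 : ‖w‖ ^ 2 ≤ (3 / 4) ^ 2 := by
      rw [← Complex.normSq_eq_norm_sq, Complex.normSq_apply]
      have := abs_le.mp h1
      have := abs_le.mp h2
      nlinarith
    exact (pow_le_pow_iff_left₀ (norm_nonneg _) (by norm_num) two_ne_zero).mp h3

theorem norm_le_of_box {z : ℂ} (h1 : |z.re| ≤ 1 / 2) (h2 : |z.im| ≤ 1 / 2) : ‖z‖ ≤ 71 / 100 := by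
  have h3 : ‖z‖ ^ 2 ≤ (71 / 100) ^ 2 := by
    rw [← Complex.normSq_eq_norm_sq, Complex.normSq_apply]
    have := abs_le.mp h1
    have := abs_le.mp h2
    nlinarith
  exact (pow_le_pow_iff_left₀ (norm_nonneg _) (by norm_num) two_ne_zero).mp h3

end FB.Lat
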