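import Mathlib
import Pool.Agent.FB.Lat.Basic

/-!
# LAT module: the kernels `M_n`, derivative, Bloch property, expansion (MP_15d50e_gt)
-/

open Complex Set Metric
open scoped ComplexConjugate Real

namespace FB.Lat

variable {κ : ℂ} {F R : ℂ → ℂ}

theorem hasDerivAt_iteratedDeriv {f : ℂ → ℂ} {U : Set ℂ} (hU : IsOpen U)
    (hf : DifferentiableOn ℂ f U) (n : ℕ) {z : ℂ} (hz : z ∈ U) :
    HasDerivAt (iteratedDeriv n f) (iteratedDeriv (n + 1) f z) z := by
  have h1 : AnalyticAt ℂ f z := hf.analyticAt (hU.mem_nhds hz)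
  have h2 : AnalyticAt ℂ (iteratedDeriv n f) z := by
    rw [iteratedDeriv_eq_iterate]
    exact h1.iterated_deriv n
  rw [iteratedDeriv_succ]
  exact h2.differentiableAt.hasDerivAt

theorem differentiableOn_iteratedDeriv {f : ℂ → ℂ} {U : Set ℂ} (hU : IsOpen U)
    (hf : DifferentiableOn ℂ f U) (n : ℕ) : DifferentiableOn ℂ (iteratedDeriv n f) U :=
  fun _ hz => (hasDerivAt_iteratedDeriv hU hf n hz).differentiableAt.differentiableWithinAt

theorem iteratedDeriv_iteratedDeriv' (f : ℂ → ℂ) (m n : ℕ) :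
    iteratedDeriv m (iteratedDeriv n f) = iteratedDeriv (m + n) f := by
  rw [iteratedDeriv_eq_iterate, iteratedDeriv_eq_iterate, iteratedDeriv_eq_iterate,
    Function.iterate_add_apply]

theorem mKer_one (F : ℂ → ℂ) : mKer F 1 = F := by
  funext z
  simp [mKer]

theorem mKer_deriv (h : IsKer κ F R) {n : ℕ} (hn : 1 ≤ n) {z : ℂ} (hz : z ∈ US 0) :
    HasDerivAt (mKer F n) (-(n : ℂ) * mKer F (n + 1) z) z := by
  obtain ⟨m, rfl⟩ : ∃ m, n = m + 1 := ⟨n - 1, by omega⟩
  have h1 := (hasDerivAt_iteratedDeriv isOpen_US_zero h.diff m hz).const_mul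
    ((-1) ^ m * ((m.factorial : ℂ))⁻¹)
  have e : -((m + 1 : ℕ) : ℂ) * mKer F (m + 1 + 1) z =
      (-1) ^ m * ((m.factorial : ℂ))⁻¹ * iteratedDeriv (m + 1) F z := by
    simp only [mKer, Nat.add_sub_cancel]
    have h2 : ((m + 1).factorial : ℂ) = ((m + 1 : ℕ) : ℂ) * (m.factorial : ℂ) := by
      rw [Nat.factorial_succ]; push_cast; ring
    have h3 : ((m + 1 : ℕ) : ℂ) ≠ 0 := by exact_mod_cast Nat.succ_ne_zero m
    have h4 : (m.factorial : ℂ) ≠ 0 := by exact_mod_cast Nat.factorial_ne_zero m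
    rw [h2]
    field_simp
    ring
  rw [e]
  exact h1

theorem mKer_bloch (h : IsKer κ F R) {n : ℕ} (hn : 1 ≤ n) : ∀ z ∈ US 0, ∀ p : ℤ × ℤ,
    mKer F n (z + lp p) = chi κ p * mKer F n z := by
  induction n, hn using Nat.le_induction with
  | base =>
    intro z hz p
    rw [mKer_one]
    exact h.bloch z hz p
  | succ n hn ih =>
    intro z hz p
    have h1 : HasDerivAt (fun w => mKer F n (w + lp p)) (-(n : ℂ) * mKer F (n + 1) (z + lp p)) z :=
      (mKer_deriv h hn (US_zero_add hz p)).comp_add_const z (lp p)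
    have h2 : HasDerivAt (fun w => chi κ p * mKer F n w)
        (chi κ p * (-(n : ℂ) * mKer F (n + 1) z)) z := (mKer_deriv h hn hz).const_mul _
    have h3 : (fun w => chi κ p * mKer F n w) =ᶠ[nhds z] (fun w => mKer F n (w + lp p)) := by
      filter_upwards [isOpen_US_zero.mem_nhds hz] with w hw
      exact (ih w hw p).symm
    have h4 := h1.congr_of_eventuallyEq h3
    have h5 := h4.unique h2
    have hn0 : (n : ℂ) ≠ 0 := by
      have : n ≠ 0 := by omega
      exact_mod_cast this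
    have h6 : -(n : ℂ) * (mKer F (n + 1) (z + lp p) - chi κ p * mKer F (n + 1) z) = 0 := by
      linear_combination h5
    rcases mul_eq_zero.mp h6 with h7 | h7
    · exact absurd (neg_eq_zero.mp h7) hn0
    · exact sub_eq_zero.mp h7

/-- Near the origin: `M_n = z^{-n} + (-1)^{n-1} R^{(n-1)}/(n-1)!`. -/
theorem mKer_near (h : IsKer κ F R) {n : ℕ} (hn : 1 ≤ n) : ∀ z : ℂ, 0 < ‖z‖ → ‖z‖ < 1 →
    mKer F n z = (z ^ n)⁻¹ + mKer R n z := by
  induction n, hn using Nat.le_induction with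
  | base =>
    intro z h0 h1
    rw [mKer_one, mKer_one, pow_one]
    exact h.eq z h0 h1
  | succ n hn ih =>
    intro z h0 h1
    have hz0 : z ≠ 0 := norm_pos_iff.mp h0
    have hn0 : (n : ℂ) ≠ 0 := by
      have : n ≠ 0 := by omega
      exact_mod_cast this
    have d1 := mKer_deriv h hn (mem_US_zero_of_norm h0 h1)
    have hzb : z ∈ ball (0 : ℂ) 1 := by simpa using h1
    have d2 : HasDerivAt (mKer R n) (-(n : ℂ) * mKer R (n + 1) z) z := by
      obtain ⟨m, rfl⟩ : ∃ m, n = m + 1 := ⟨n - 1, by omega⟩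
      have h1 := (hasDerivAt_iteratedDeriv isOpen_ball h.R_diff m hzb).const_mul
        ((-1) ^ m * ((m.factorial : ℂ))⁻¹)
      have e : -((m + 1 : ℕ) : ℂ) * mKer R (m + 1 + 1) z =
          (-1) ^ m * ((m.factorial : ℂ))⁻¹ * iteratedDeriv (m + 1) R z := by
        simp only [mKer, Nat.add_sub_cancel]
        have h2 : ((m + 1).factorial : ℂ) = ((m + 1 : ℕ) : ℂ) * (m.factorial : ℂ) := by
          rw [Nat.factorial_succ]; push_cast; ring
        have h4 : (m.factorial : ℂ) ≠ 0 := by exact_mod_cast Nat.factorial_ne_zero m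
        rw [h2]
        field_simp
        ring
      rw [e]
      exact h1
    have d3 : HasDerivAt (fun w : ℂ => (w ^ n)⁻¹) (-(n : ℂ) * (z ^ (n + 1))⁻¹) z := by
      have := (hasDerivAt_pow n z).inv (pow_ne_zero n hz0)
      refine this.congr_deriv ?_
      obtain ⟨m, rfl⟩ : ∃ m, n = m + 1 := ⟨n - 1, by omega⟩
      simp only [Nat.add_sub_cancel]
      field_simp
      ring
    have d4 := d3.add d2
    have hev : (fun w : ℂ => (w ^ n)⁻¹) + mKer R n =ᶠ[nhds z] mKer F n := by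
      have hop : IsOpen {w : ℂ | 0 < ‖w‖ ∧ ‖w‖ < 1} :=
        (isOpen_lt continuous_const continuous_norm).inter (isOpen_lt continuous_norm continuous_const)
      filter_upwards [hop.mem_nhds ⟨h0, h1⟩] with w hw
      exact (ih w hw.1 hw.2).symm
    have h5 := (d1.congr_of_eventuallyEq hev).unique d4
    have h6 : -(n : ℂ) * (mKer F (n + 1) z - ((z ^ (n + 1))⁻¹ + mKer R (n + 1) z)) = 0 := by
      linear_combination h5
    rcases mul_eq_zero.mp h6 with h7 | h7
    · exact absurd (neg_eq_zero.mp h7) hn0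
    · exact sub_eq_zero.mp h7

theorem hasSum_congr_fun {f g : ℕ → ℂ} {a : ℂ} (hg : HasSum g a) (h : ∀ m, f m = g m) :
    HasSum f a := by
  have : f = g := funext h
  rw [this]
  exact hg

/-- Taylor expansion of `M_n - z^{-n}`. -/
theorem mKer_expand (h : IsKer κ F R) {n : ℕ} (hn : 1 ≤ n) (z : ℂ) (h0 : 0 < ‖z‖) (h1 : ‖z‖ < 1) :
    HasSum (fun m : ℕ => (-1 : ℂ) ^ n * (Nat.choose (n + m - 1) m : ℂ) * eCo R (n + m) * z ^ m)
      (mKer F n z - (z ^ n)⁻¹) := by
  rw [mKer_near h hn z h0 h1, add_sub_cancel_left]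
  obtain ⟨k, rfl⟩ : ∃ k, n = k + 1 := ⟨n - 1, by omega⟩
  have hzb : z ∈ ball (0 : ℂ) 1 := by simpa using h1
  have hs := (hasSum_taylorSeries_on_ball (differentiableOn_iteratedDeriv isOpen_ball h.R_diff k)
    hzb).mul_left ((-1) ^ k * ((k.factorial : ℂ))⁻¹)
  simp only [mKer, Nat.add_sub_cancel]
  refine hasSum_congr_fun hs ?_
  intro m
  rw [iteratedDeriv_iteratedDeriv', sub_zero, smul_eq_mul, smul_eq_mul]
  have e1 : k + 1 + m ≠ 0 := by omega
  have e2 : k + 1 + m - 1 = m + k := by omega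
  simp only [eCo, if_neg e1, e2]
  have hc : ((Nat.choose (m + k) m : ℕ) : ℂ) * (m.factorial : ℂ) * (k.factorial : ℂ) =
      ((m + k).factorial : ℂ) := by
    exact_mod_cast (by simpa using Nat.choose_mul_factorial_mul_factorial (Nat.le_add_right m k))
  have h2 : (m.factorial : ℂ) ≠ 0 := by exact_mod_cast Nat.factorial_ne_zero m
  have h3 : (k.factorial : ℂ) ≠ 0 := by exact_mod_cast Nat.factorial_ne_zero k
  have h4 : ((m + k).factorial : ℂ) ≠ 0 := by exact_mod_cast Nat.factorial_ne_zero (m + k)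
  have h5 : ((Nat.choose (m + k) m : ℕ) : ℂ) = ((m + k).factorial : ℂ) * (m.factorial : ℂ)⁻¹ *
      (k.factorial : ℂ)⁻¹ := by
    rw [← hc]; field_simp
  rw [h5]
  field_simp
  ring

end FB.Lat
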