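import Mathlib
import Pool.Agent.FB.Lat.Mker

/-!
# LAT module: the logarithmic function on the punctured unit disc (MP_15d50e_gt)
-/

open Complex Set Metric
open scoped ComplexConjugate Real

namespace FB.Lat

variable {κ : ℂ} {F R P : ℂ → ℂ}

theorem exists_prim (h : IsKer κ F R) : ∃ P : ℂ → ℂ, IsPrim R P := by
  have h1 : DifferentiableOn ℂ (fun z => -(R z)) (ball (0 : ℂ) 1) := h.R_diff.neg
  obtain ⟨P, hP0, hP⟩ := h1.isExactOn_ball.with_val_at 0 0
  exact ⟨P, hP0, hP⟩

theorem gLoc_symm (P : ℂ → ℂ) (z : ℂ) : gLoc P (-z) = conj (gLoc P z) := by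
  simp only [gLoc, norm_neg, neg_neg, map_sub, Complex.conj_ofReal, map_div₀, map_add,
    Complex.conj_conj, Complex.conj_ofNat]
  ring

/-- The derivative of `log ‖z‖`. -/
theorem hasFDerivAt_log_norm {z : ℂ} (hz : z ≠ 0) :
    HasFDerivAt (fun w : ℂ => ((Real.log ‖w‖ : ℝ) : ℂ)) (dpair (z⁻¹ / 2) (conj (z⁻¹) / 2)) z := by
  have hn : 0 < Complex.normSq z := Complex.normSq_pos.mpr hz
  have h1 : HasFDerivAt (fun w : ℂ => w.re * w.re + w.im * w.im)
      ((z.re • Complex.reCLM + z.re • Complex.reCLM) + (z.im • Complex.imCLM + z.im • Complex.imCLM))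
      z := by
    have a1 : HasFDerivAt (fun w : ℂ => w.re) Complex.reCLM z := Complex.reCLM.hasFDerivAt
    have a2 : HasFDerivAt (fun w : ℂ => w.im) Complex.imCLM z := Complex.imCLM.hasFDerivAt
    exact (a1.mul a1).add (a2.mul a2)
  have h2 : HasFDerivAt (fun w : ℂ => Real.log (w.re * w.re + w.im * w.im))
      ((z.re * z.re + z.im * z.im)⁻¹ • ((z.re • Complex.reCLM + z.re • Complex.reCLM) +
        (z.im • Complex.imCLM + z.im • Complex.imCLM))) z := by
    apply h1.log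
    rw [← Complex.normSq_apply]
    exact hn.ne'
  have h3 : HasFDerivAt (fun w : ℂ => (1 / 2 : ℝ) * Real.log (w.re * w.re + w.im * w.im))
      ((1 / 2 : ℝ) • ((z.re * z.re + z.im * z.im)⁻¹ • ((z.re • Complex.reCLM + z.re • Complex.reCLM) +
        (z.im • Complex.imCLM + z.im • Complex.imCLM)))) z := h2.const_mul _
  have h4 := (Complex.ofRealCLM.hasFDerivAt (x := (1 / 2 : ℝ) *
    Real.log (z.re * z.re + z.im * z.im))).comp z h3
  have e1 : (fun w : ℂ => ((Real.log ‖w‖ : ℝ) : ℂ)) =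
      (fun x : ℝ => (Complex.ofRealCLM x)) ∘ fun w : ℂ => (1 / 2 : ℝ) *
        Real.log (w.re * w.re + w.im * w.im) := by
    funext w
    simp only [Function.comp, Complex.ofRealCLM_apply]
    congr 1
    rw [← Complex.normSq_apply, Complex.normSq_eq_norm_sq, Real.log_pow]
    push_cast
    ring
  rw [e1]
  refine h4.congr_fderiv ?_
  ext w
  have e2 : z⁻¹ / 2 * w + conj (z⁻¹) / 2 * conj w = (((z⁻¹ * w).re : ℝ) : ℂ) := by
    rw [Complex.re_eq_add_conj (z⁻¹ * w), map_mul]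
    ring
  have e3 : (z⁻¹ * w).re = (1 / 2 : ℝ) * ((z.re * z.re + z.im * z.im)⁻¹ *
      ((z.re * w.re + z.re * w.re) + (z.im * w.im + z.im * w.im))) := by
    rw [Complex.mul_re, Complex.inv_re, Complex.inv_im, Complex.normSq_apply]
    ring
  rw [dpair_apply, e2, e3]
  simp
  ring

theorem gLoc_deriv (h : IsKer κ F R) (hP : IsPrim R P) {z : ℂ} (h0 : 0 < ‖z‖) (h1 : ‖z‖ < 1) :
    HasFDerivAt (gLoc P) (dpair (F z / 2) (-(conj (F (-z) / 2)))) z := by
  have hz : z ≠ 0 := norm_pos_iff.mp h0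
  have d1 := hasFDerivAt_log_norm hz
  have d2 : HasFDerivAt P (dpair (-(R z)) 0) z := by
    refine ((hP.deriv z (by simpa using h1)).complexToReal_fderiv).congr_fderiv ?_
    ext w
    simp [mul_comm]
  have d3 : HasFDerivAt (fun w : ℂ => conj (P (-w))) (dpair 0 (conj (R (-z)))) z := by
    have a1 : HasFDerivAt P ((-(R (-z))) • (1 : ℂ →L[ℝ] ℂ)) (-z) :=
      (hP.deriv (-z) (by simpa using h1)).complexToReal_fderiv
    have a2 : HasFDerivAt (fun w : ℂ => -w) (-(ContinuousLinearMap.id ℝ ℂ)) z :=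
      (hasFDerivAt_id z).neg
    have a3 := a1.comp z a2
    have a4 := (Complex.conjCLE.hasFDerivAt (x := P (-z))).comp z a3
    refine a4.congr_fderiv ?_
    ext w
    simp [mul_comm]
  have d4 := d1.sub ((d2.add d3).const_smul (1 / 2 : ℝ))
  have e1 : gLoc P = (fun w : ℂ => ((Real.log ‖w‖ : ℝ) : ℂ)) -
      (1 / 2 : ℝ) • (P + fun w : ℂ => conj (P (-w))) := by
    funext w
    simp only [gLoc, Pi.sub_apply, Pi.smul_apply, Pi.add_apply, Complex.real_smul]
    push_cast
    ring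
  rw [e1]
  refine d4.congr_fderiv ?_
  ext w
  have hF1 := h.eq z h0 h1
  have hF2 := h.eq (-z) (by rwa [norm_neg]) (by rwa [norm_neg])
  rw [dpair_apply, hF1, hF2]
  simp only [sub_apply, smul_apply, add_apply, dpair_apply, Complex.real_smul, map_div₀, map_add,
    map_inv₀, map_neg, Complex.conj_ofNat]
  push_cast
  rw [inv_neg]
  ring

theorem iteratedDeriv_prim (hP : IsPrim R P) (m : ℕ) :
    iteratedDeriv (m + 1) P 0 = (m.factorial : ℂ) * eCo R (m + 1) := by
  have h0 : (0 : ℂ) ∈ ball (0 : ℂ) 1 := by simp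
  have h1 : deriv P =ᶠ[nhds 0] fun z => -(R z) := by
    filter_upwards [isOpen_ball.mem_nhds h0] with z hz
    exact (hP.deriv z hz).deriv
  have h2 : iteratedDeriv (m + 1) P 0 = iteratedDeriv m (fun z => -(R z)) 0 := by
    rw [iteratedDeriv_succ']
    exact h1.iteratedDeriv_eq m
  have h4 : (m.factorial : ℂ) ≠ 0 := by exact_mod_cast Nat.factorial_ne_zero m
  rw [h2, iteratedDeriv_fun_neg]
  simp only [eCo, if_neg (Nat.succ_ne_zero m), Nat.add_sub_cancel]
  field_simp

theorem prim_expand (hP : IsPrim R P) {z : ℂ} (h1 : ‖z‖ < 1) :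
    HasSum (fun m : ℕ => eCo R (m + 1) * z ^ (m + 1) / ((m : ℂ) + 1)) (P z) := by
  have hd : DifferentiableOn ℂ P (ball (0 : ℂ) 1) :=
    fun w hw => (hP.deriv w hw).differentiableAt.differentiableWithinAt
  have hs := hasSum_taylorSeries_on_ball hd (z := z) (by simpa using h1)
  rw [← hasSum_nat_add_iff' 1] at hs
  simp only [Finset.range_one, Finset.sum_singleton, Nat.factorial_zero, Nat.cast_one, inv_one,
    pow_zero, iteratedDeriv_zero, hP.zero, smul_zero, sub_zero] at hs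
  refine hasSum_congr_fun hs ?_
  intro m
  rw [iteratedDeriv_prim hP, smul_eq_mul, smul_eq_mul, Nat.factorial_succ]
  have h4 : (m.factorial : ℂ) ≠ 0 := by exact_mod_cast Nat.factorial_ne_zero m
  have h5 : ((m : ℂ) + 1) ≠ 0 := by exact_mod_cast Nat.succ_ne_zero m
  push_cast
  field_simp

theorem gLoc_expand (hP : IsPrim R P) {z : ℂ} (h1 : ‖z‖ < 1) :
    HasSum (fun m : ℕ => -(1 / (2 * ((m : ℂ) + 1))) *
      (eCo R (m + 1) * z ^ (m + 1) + (-1) ^ (m + 1) * conj (eCo R (m + 1)) * conj z ^ (m + 1)))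
      (gLoc P z - Real.log ‖z‖) := by
  have s1 := prim_expand hP h1
  have s2 := prim_expand hP (z := -z) (by rwa [norm_neg])
  have s3 : HasSum (fun m : ℕ => conj (eCo R (m + 1) * (-z) ^ (m + 1) / ((m : ℂ) + 1)))
      (conj (P (-z))) := by
    have := s2.mapL Complex.conjCLE.toContinuousLinearMap
    simpa using this
  have s4 := (s1.add s3).mul_left (-(1 / 2 : ℂ))
  have e1 : -(1 / 2 : ℂ) * (P z + conj (P (-z))) = gLoc P z - Real.log ‖z‖ := by
    simp only [gLoc]; ring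
  rw [e1] at s4
  refine hasSum_congr_fun s4 ?_
  intro m
  have h5 : ((m : ℂ) + 1) ≠ 0 := by exact_mod_cast Nat.succ_ne_zero m
  simp only [map_div₀, map_mul, map_pow, map_neg, map_add, map_natCast, map_one]
  rw [neg_pow (conj z)]
  field_simp

end FB.Lat
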