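import Mathlib
import Pool.Agent.FB.Lat.GLoc

/-!
# LAT module: the logarithmic Bloch function by gluing (MP_15d50e_gt)
-/

open Complex Set Metric
open scoped ComplexConjugate Real

namespace FB.Lat

variable {κ : ℂ} {F R P : ℂ → ℂ}

/-- The value on the unit disc. -/
noncomputable def gD (κ : ℂ) (P : ℂ → ℂ) (z : ℂ) : ℂ := gLoc P z + (gam κ P : ℂ)

theorem gD_symm (κ : ℂ) (P : ℂ → ℂ) (z : ℂ) : gD κ P (-z) = conj (gD κ P z) := by
  simp only [gD, gLoc_symm, map_add, Complex.conj_ofReal]

theorem gD_deriv (h : IsKer κ F R) (hP : IsPrim R P) {z : ℂ} (h0 : 0 < ‖z‖) (h1 : ‖z‖ < 1) :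
    HasFDerivAt (gD κ P) (dpair (F z / 2) (-(conj (F (-z) / 2)))) z :=
  (gLoc_deriv h hP h0 h1).add_const _

/-- The choice of `γ`. -/
theorem gD_half (κ : ℂ) (P : ℂ → ℂ) (hs : Real.sin (κ.re / 2) ≠ 0) :
    gD κ P (1 / 2) = chi κ (1, 0) * gD κ P (-(1 / 2)) := by
  set u := gLoc P (-(1 / 2)) with hu
  set e := cexp (((κ.re / 2 : ℝ) : ℂ) * I) with he
  have h1 : gLoc P (1 / 2) = conj u := by
    have := gLoc_symm P (-(1 / 2))
    rwa [neg_neg] at this
  have hchi : chi κ (1, 0) = e * e := by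
    rw [he, ← Complex.exp_add, chi]
    congr 1
    push_cast
    ring
  have hee : e * conj e = 1 := by
    rw [Complex.mul_conj, Complex.normSq_eq_norm_sq, he, Complex.norm_exp_ofReal_mul_I]
    simp
  have hsin : e - conj e = 2 * (Real.sin (κ.re / 2) : ℂ) * I := by
    have h2 : e.im = Real.sin (κ.re / 2) := by rw [he, Complex.exp_ofReal_mul_I_im]
    have h3 := Complex.im_eq_sub_conj e
    rw [h2] at h3
    have hI : (2 * I : ℂ) ≠ 0 := by simp
    rw [h3]
    field_simp
  have him : e * u - conj (e * u) = 2 * ((e * u).im : ℂ) * I := by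
    have h3 := Complex.im_eq_sub_conj (e * u)
    rw [h3]
    have hI : (2 * I : ℂ) ≠ 0 := by simp
    field_simp
  have hg : (gam κ P : ℂ) * (Real.sin (κ.re / 2) : ℂ) = -((e * u).im : ℂ) := by
    have : gam κ P * Real.sin (κ.re / 2) = -(e * u).im := by
      rw [gam, ← hu, ← he]
      field_simp
    exact_mod_cast this
  simp only [gD]
  rw [h1, ← hu, hchi]
  have hmul : conj (e * u) = conj e * conj u := map_mul _ _ _
  rw [hmul] at him
  have key : conj e * (conj u + (gam κ P : ℂ)) = e * (u + (gam κ P : ℂ)) := by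
    linear_combination (-1 : ℂ) * him - (gam κ P : ℂ) * hsin - 2 * I * hg
  calc conj u + (gam κ P : ℂ) = e * conj e * (conj u + (gam κ P : ℂ)) := by rw [hee, one_mul]
    _ = e * (conj e * (conj u + (gam κ P : ℂ))) := by ring
    _ = e * (e * (u + (gam κ P : ℂ))) := by rw [key]
    _ = e * e * (u + (gam κ P : ℂ)) := by ring

/-- On an overlap of two discs the difference is constant. -/
theorem overlap_const (h : IsKer κ F R) (hP : IsPrim R P) (q : ℤ × ℤ) (hq : q ≠ 0) {z w : ℂ}
    (hz : ‖z‖ < 1) (hz' : ‖z - lp q‖ < 1) (hw : ‖w‖ < 1) (hw' : ‖w - lp q‖ < 1) :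
    gD κ P z - chi κ q * gD κ P (z - lp q) = gD κ P w - chi κ q * gD κ P (w - lp q) := by
  set U : Set ℂ := ball (0 : ℂ) 1 ∩ ball (lp q) 1 with hU
  have hUo : IsOpen U := isOpen_ball.inter isOpen_ball
  have hUc : Convex ℝ U := (convex_ball _ _).inter (convex_ball _ _)
  have hq1 := one_le_norm_lp hq
  have hd : ∀ x ∈ U, HasFDerivAt (fun x => gD κ P x - chi κ q * gD κ P (x - lp q))
      (0 : ℂ →L[ℝ] ℂ) x := by
    intro x hx
    have hx1 : ‖x‖ < 1 := by simpa using hx.1
    have hx2 : ‖x - lp q‖ < 1 := by simpa [dist_eq_norm] using hx.2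
    have hx3 : 0 < ‖x‖ := by
      rw [norm_pos_iff]
      rintro rfl
      rw [zero_sub, norm_neg] at hx2
      linarith
    have hx4 : 0 < ‖x - lp q‖ := by
      rw [norm_pos_iff]
      intro hcon
      rw [sub_eq_zero] at hcon
      rw [hcon] at hx1
      linarith
    have hxU : x ∈ US 0 := mem_US_zero_of_norm hx3 hx1
    have d1 := gD_deriv h hP hx3 hx1
    have d2 := gD_deriv h hP hx4 hx2
    have d3 : HasFDerivAt (fun x : ℂ => gD κ P (x - lp q))
        (dpair (F (x - lp q) / 2) (-(conj (F (-(x - lp q)) / 2)))) x := by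
      have := d2.comp x ((hasFDerivAt_id x).sub_const (lp q))
      simpa [Function.comp_def] using this
    have d4 := d1.sub (d3.const_mul (chi κ q))
    refine d4.congr_fderiv ?_
    have e1 : F x = chi κ q * F (x - lp q) := by
      have := h.bloch (x - lp q) (US_zero_sub hxU q) q
      rwa [sub_add_cancel] at this
    have e2 : F (-(x - lp q)) = chi κ q * F (-x) := by
      have := h.bloch (-x) (US_zero_neg hxU) q
      rw [← this]
      congr 1
      ring
    have e3 : chi κ q * conj (chi κ q) = 1 := by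
      rw [← chi_neg, chi_mul_neg]
    ext v
    simp only [sub_apply, smul_apply, dpair_apply, smul_eq_mul, zero_apply]
    rw [e1, e2, map_div₀, map_div₀, map_mul, Complex.conj_ofNat]
    linear_combination (conj (F (-x)) * conj v / 2) * e3
  have hmem : ∀ x : ℂ, ‖x‖ < 1 → ‖x - lp q‖ < 1 → x ∈ U := by
    intro x h1 h2
    exact ⟨by simpa using h1, by simpa [dist_eq_norm] using h2⟩
  have := hUc.is_const_of_fderivWithin_eq_zero (𝕜 := ℝ)
    (f := fun x => gD κ P x - chi κ q * gD κ P (x - lp q))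
    (fun x hx => (hd x hx).differentiableAt.differentiableWithinAt)
    (fun x hx => by
      rw [fderivWithin_of_isOpen hUo hx]
      exact (hd x hx).fderiv)
    (hmem z hz hz') (hmem w hw hw')
  exact this

end FB.Lat
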