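import Mathlib
import Pool.Agent.FB.Lat.Glue

/-!
# LAT module: the logarithmic Bloch function, gluing completed (MP_15d50e_gt)
-/

open Complex Set Metric
open scoped ComplexConjugate Real

namespace FB.Lat

variable {κ : ℂ} {F R P : ℂ → ℂ}

theorem norm_half_box {a b : ℝ} (ha : |a| ≤ 1 / 2) (hb : |b| ≤ 1 / 2) :
    ‖((a : ℂ) + (b : ℂ) * I)‖ < 1 := by
  have := norm_le_of_box (z := (a : ℂ) + (b : ℂ) * I) (by simpa using ha) (by simpa using hb)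
  linarith

theorem overlap_10 (h : IsKer κ F R) (hP : IsPrim R P) (hs : Real.sin (κ.re / 2) ≠ 0) {z : ℂ}
    (hz : ‖z‖ < 1) (hz' : ‖z - lp (1, 0)‖ < 1) :
    gD κ P z = chi κ (1, 0) * gD κ P (z - lp (1, 0)) := by
  have h1 : lp (1, 0) = 1 := by simp [lp]
  have hw : ‖(1 / 2 : ℂ)‖ < 1 := by
    rw [norm_div]; norm_num
  have hw' : ‖(1 / 2 : ℂ) - lp (1, 0)‖ < 1 := by
    rw [h1, show (1 / 2 : ℂ) - 1 = -(1 / 2) by ring, norm_neg]; exact hw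
  have h2 := overlap_const h hP (1, 0) (by simp) hz hz' hw hw'
  have h3 := gD_half κ P hs
  rw [h1] at h2 ⊢
  rw [show (1 / 2 : ℂ) - 1 = -(1 / 2) by ring, ← h3, sub_self] at h2
  exact sub_eq_zero.mp h2

theorem chi_ne_one (hs : Real.sin (κ.re / 2) ≠ 0) : chi κ (1, 0) ≠ 1 := by
  intro hcon
  have h1 : chi κ (1, 0) = cexp ((κ.re : ℂ) * I) := by
    rw [chi]; congr 1; push_cast; ring
  rw [h1] at hcon
  have h2 : Real.cos κ.re = 1 := by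
    have := congrArg Complex.re hcon
    rwa [Complex.exp_ofReal_mul_I_re, Complex.one_re] at this
  have h3 : Real.cos κ.re = 1 - 2 * Real.sin (κ.re / 2) ^ 2 := by
    have := Real.cos_sq (κ.re / 2)
    have h4 := Real.sin_sq_add_cos_sq (κ.re / 2)
    rw [show 2 * (κ.re / 2) = κ.re by ring] at this
    nlinarith
  have h5 : Real.sin (κ.re / 2) ^ 2 = 0 := by linarith
  exact hs (pow_eq_zero_iff two_ne_zero |>.mp h5)

theorem lp_10 : lp (1, 0) = 1 := by simp [lp]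

theorem lp_01 : lp (0, 1) = I := by simp [lp]

theorem overlap_01 (h : IsKer κ F R) (hP : IsPrim R P) (hs : Real.sin (κ.re / 2) ≠ 0) {z : ℂ}
    (hz : ‖z‖ < 1) (hz' : ‖z - lp (0, 1)‖ < 1) :
    gD κ P z = chi κ (0, 1) * gD κ P (z - lp (0, 1)) := by
  -- the four corners
  have hpp : ‖((1 / 2 : ℝ) : ℂ) + ((1 / 2 : ℝ) : ℂ) * I‖ < 1 := norm_half_box (by norm_num) (by norm_num)
  have hmp : ‖((-1 / 2 : ℝ) : ℂ) + ((1 / 2 : ℝ) : ℂ) * I‖ < 1 :=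
    norm_half_box (by rw [abs_le]; constructor <;> norm_num) (by norm_num)
  have hpm : ‖((1 / 2 : ℝ) : ℂ) + ((-1 / 2 : ℝ) : ℂ) * I‖ < 1 :=
    norm_half_box (by norm_num) (by rw [abs_le]; constructor <;> norm_num)
  have hmm : ‖((-1 / 2 : ℝ) : ℂ) + ((-1 / 2 : ℝ) : ℂ) * I‖ < 1 :=
    norm_half_box (by rw [abs_le]; constructor <;> norm_num)
      (by rw [abs_le]; constructor <;> norm_num)
  set pp : ℂ := ((1 / 2 : ℝ) : ℂ) + ((1 / 2 : ℝ) : ℂ) * I with hppd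
  set mp : ℂ := ((-1 / 2 : ℝ) : ℂ) + ((1 / 2 : ℝ) : ℂ) * I with hmpd
  set pm : ℂ := ((1 / 2 : ℝ) : ℂ) + ((-1 / 2 : ℝ) : ℂ) * I with hpmd
  set mm : ℂ := ((-1 / 2 : ℝ) : ℂ) + ((-1 / 2 : ℝ) : ℂ) * I with hmmd
  have e1 : pp - lp (1, 0) = mp := by rw [lp_10, hppd, hmpd]; push_cast; ring
  have e2 : pm - lp (1, 0) = mm := by rw [lp_10, hpmd, hmmd]; push_cast; ring
  have e3 : pp - lp (0, 1) = pm := by rw [lp_01, hppd, hpmd]; push_cast; ring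
  have e4 : mp - lp (0, 1) = mm := by rw [lp_01, hmpd, hmmd]; push_cast; ring
  have a1 := overlap_10 h hP hs (z := pp) hpp (by rw [e1]; exact hmp)
  have a2 := overlap_10 h hP hs (z := pm) hpm (by rw [e2]; exact hmm)
  rw [e1] at a1
  rw [e2] at a2
  have hne : ((0 : ℤ), (1 : ℤ)) ≠ 0 := by simp
  have b1 := overlap_const h hP (0, 1) hne hz hz' hpp (by rw [e3]; exact hpm)
  have b2 := overlap_const h hP (0, 1) hne hz hz' hmp (by rw [e4]; exact hmm)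
  rw [e3] at b1
  rw [e4] at b2
  set c := gD κ P z - chi κ (0, 1) * gD κ P (z - lp (0, 1)) with hc
  have h5 : c * (chi κ (1, 0) - 1) = 0 := by
    rw [a1, a2] at b1
    linear_combination chi κ (1, 0) * b2 - b1
  rcases mul_eq_zero.mp h5 with h6 | h6
  · rw [hc] at h6
    exact sub_eq_zero.mp h6
  · exact absurd (sub_eq_zero.mp h6) (chi_ne_one hs)

/-- If the overlap identity holds at one point for `q`, it holds on the whole overlap. -/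
theorem overlap_of_point (h : IsKer κ F R) (hP : IsPrim R P) {q : ℤ × ℤ} (hq : q ≠ 0) {w : ℂ}
    (hw : ‖w‖ < 1) (hw' : ‖w - lp q‖ < 1) (he : gD κ P w = chi κ q * gD κ P (w - lp q)) {z : ℂ}
    (hz : ‖z‖ < 1) (hz' : ‖z - lp q‖ < 1) : gD κ P z = chi κ q * gD κ P (z - lp q) := by
  have h1 := overlap_const h hP q hq hz hz' hw hw'
  rw [← he, sub_self] at h1
  exact sub_eq_zero.mp h1

theorem overlap_neg {q : ℤ × ℤ}
    (hq : ∀ z : ℂ, ‖z‖ < 1 → ‖z - lp q‖ < 1 → gD κ P z = chi κ q * gD κ P (z - lp q)) :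
    ∀ z : ℂ, ‖z‖ < 1 → ‖z - lp (-q)‖ < 1 → gD κ P z = chi κ (-q) * gD κ P (z - lp (-q)) := by
  intro z hz hz'
  have e1 : z - lp (-q) - lp q = z := by rw [lp_neg]; ring
  have h1 := hq (z - lp (-q)) hz' (by rw [e1]; exact hz)
  rw [e1] at h1
  rw [h1, ← mul_assoc, ← chi_add]
  simp

/-- All overlaps. -/
theorem overlap (h : IsKer κ F R) (hP : IsPrim R P) (hs : Real.sin (κ.re / 2) ≠ 0) (q : ℤ × ℤ)
    (z : ℂ) (hz : ‖z‖ < 1) (hz' : ‖z - lp q‖ < 1) :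
    gD κ P z = chi κ q * gD κ P (z - lp q) := by
  have H10 : ∀ z : ℂ, ‖z‖ < 1 → ‖z - lp (1, 0)‖ < 1 →
      gD κ P z = chi κ (1, 0) * gD κ P (z - lp (1, 0)) := fun z h1 h2 => overlap_10 h hP hs h1 h2
  have H01 : ∀ z : ℂ, ‖z‖ < 1 → ‖z - lp (0, 1)‖ < 1 →
      gD κ P z = chi κ (0, 1) * gD κ P (z - lp (0, 1)) := fun z h1 h2 => overlap_01 h hP hs h1 h2
  have H0m : ∀ z : ℂ, ‖z‖ < 1 → ‖z - lp (0, -1)‖ < 1 →
      gD κ P z = chi κ (0, -1) * gD κ P (z - lp (0, -1)) := by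
    have := overlap_neg H01
    simpa using this
  have H11 : ∀ z : ℂ, ‖z‖ < 1 → ‖z - lp (1, 1)‖ < 1 →
      gD κ P z = chi κ (1, 1) * gD κ P (z - lp (1, 1)) := by
    intro z hz hz'
    have hpp : ‖((1 / 2 : ℝ) : ℂ) + ((1 / 2 : ℝ) : ℂ) * I‖ < 1 :=
      norm_half_box (by norm_num) (by norm_num)
    have hmp : ‖((-1 / 2 : ℝ) : ℂ) + ((1 / 2 : ℝ) : ℂ) * I‖ < 1 :=
      norm_half_box (by rw [abs_le]; constructor <;> norm_num) (by norm_num)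
    have hmm : ‖((-1 / 2 : ℝ) : ℂ) + ((-1 / 2 : ℝ) : ℂ) * I‖ < 1 :=
      norm_half_box (by rw [abs_le]; constructor <;> norm_num)
        (by rw [abs_le]; constructor <;> norm_num)
    have e1 : (((1 / 2 : ℝ) : ℂ) + ((1 / 2 : ℝ) : ℂ) * I) - lp (1, 0) =
        ((-1 / 2 : ℝ) : ℂ) + ((1 / 2 : ℝ) : ℂ) * I := by rw [lp_10]; push_cast; ring
    have e2 : (((-1 / 2 : ℝ) : ℂ) + ((1 / 2 : ℝ) : ℂ) * I) - lp (0, 1) =
        ((-1 / 2 : ℝ) : ℂ) + ((-1 / 2 : ℝ) : ℂ) * I := by rw [lp_01]; push_cast; ring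
    have e3 : (((1 / 2 : ℝ) : ℂ) + ((1 / 2 : ℝ) : ℂ) * I) - lp (1, 1) =
        ((-1 / 2 : ℝ) : ℂ) + ((-1 / 2 : ℝ) : ℂ) * I := by
      rw [show ((1 : ℤ), (1 : ℤ)) = (1, 0) + (0, 1) by simp, lp_add, lp_10, lp_01]; push_cast; ring
    refine overlap_of_point h hP (by simp) hpp (by rw [e3]; exact hmm) ?_ hz hz'
    have a1 := H10 _ hpp (by rw [e1]; exact hmp)
    have a2 := H01 _ hmp (by rw [e2]; exact hmm)
    rw [e1] at a1
    rw [e2] at a2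
    rw [e3, a1, a2, ← mul_assoc, ← chi_add]
    simp
  have H1m : ∀ z : ℂ, ‖z‖ < 1 → ‖z - lp (1, -1)‖ < 1 →
      gD κ P z = chi κ (1, -1) * gD κ P (z - lp (1, -1)) := by
    intro z hz hz'
    have hpm : ‖((1 / 2 : ℝ) : ℂ) + ((-1 / 2 : ℝ) : ℂ) * I‖ < 1 :=
      norm_half_box (by norm_num) (by rw [abs_le]; constructor <;> norm_num)
    have hmp : ‖((-1 / 2 : ℝ) : ℂ) + ((1 / 2 : ℝ) : ℂ) * I‖ < 1 :=
      norm_half_box (by rw [abs_le]; constructor <;> norm_num) (by norm_num)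
    have hmm : ‖((-1 / 2 : ℝ) : ℂ) + ((-1 / 2 : ℝ) : ℂ) * I‖ < 1 :=
      norm_half_box (by rw [abs_le]; constructor <;> norm_num)
        (by rw [abs_le]; constructor <;> norm_num)
    have hm : lp (0, -1) = -I := by simp [lp]
    have e1 : (((1 / 2 : ℝ) : ℂ) + ((-1 / 2 : ℝ) : ℂ) * I) - lp (1, 0) =
        ((-1 / 2 : ℝ) : ℂ) + ((-1 / 2 : ℝ) : ℂ) * I := by rw [lp_10]; push_cast; ring
    have e2 : (((-1 / 2 : ℝ) : ℂ) + ((-1 / 2 : ℝ) : ℂ) * I) - lp (0, -1) =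
        ((-1 / 2 : ℝ) : ℂ) + ((1 / 2 : ℝ) : ℂ) * I := by rw [hm]; push_cast; ring
    have e3 : (((1 / 2 : ℝ) : ℂ) + ((-1 / 2 : ℝ) : ℂ) * I) - lp (1, -1) =
        ((-1 / 2 : ℝ) : ℂ) + ((1 / 2 : ℝ) : ℂ) * I := by
      rw [show ((1 : ℤ), (-1 : ℤ)) = (1, 0) + (0, -1) by simp, lp_add, lp_10, hm]; push_cast; ring
    refine overlap_of_point h hP (by simp) hpm (by rw [e3]; exact hmp) ?_ hz hz'
    have a1 := H10 _ hpm (by rw [e1]; exact hmm)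
    have a2 := H0m _ hmm (by rw [e2]; exact hmp)
    rw [e1] at a1
    rw [e2] at a2
    rw [e3, a1, a2, ← mul_assoc, ← chi_add]
    simp
  have Hm0 : ∀ z : ℂ, ‖z‖ < 1 → ‖z - lp (-1, 0)‖ < 1 →
      gD κ P z = chi κ (-1, 0) * gD κ P (z - lp (-1, 0)) := by
    have := overlap_neg H10
    simpa using this
  have Hmm : ∀ z : ℂ, ‖z‖ < 1 → ‖z - lp (-1, -1)‖ < 1 →
      gD κ P z = chi κ (-1, -1) * gD κ P (z - lp (-1, -1)) := by
    have := overlap_neg H11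
    simpa using this
  have Hm1 : ∀ z : ℂ, ‖z‖ < 1 → ‖z - lp (-1, 1)‖ < 1 →
      gD κ P z = chi κ (-1, 1) * gD κ P (z - lp (-1, 1)) := by
    have := overlap_neg H1m
    simpa using this
  obtain ⟨a, b⟩ := q
  have hlp : ‖lp (a, b)‖ < 2 := by
    calc ‖lp (a, b)‖ = ‖z - (z - lp (a, b))‖ := by congr 1; ring
      _ ≤ ‖z‖ + ‖z - lp (a, b)‖ := norm_sub_le _ _
      _ < 2 := by linarith
  have ha : |(a : ℝ)| < 2 := by
    calc |(a : ℝ)| = |(lp (a, b)).re| := by simp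
      _ ≤ ‖lp (a, b)‖ := Complex.abs_re_le_norm _
      _ < 2 := hlp
  have hb : |(b : ℝ)| < 2 := by
    calc |(b : ℝ)| = |(lp (a, b)).im| := by simp
      _ ≤ ‖lp (a, b)‖ := Complex.abs_im_le_norm _
      _ < 2 := hlp
  have ha' : |a| < 2 := by exact_mod_cast ha
  have hb' : |b| < 2 := by exact_mod_cast hb
  rw [abs_lt] at ha' hb'
  obtain ⟨ha1, ha2⟩ := ha'
  obtain ⟨hb1, hb2⟩ := hb'
  interval_cases a <;> interval_cases b
  · exact Hmm z hz hz'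
  · exact Hm0 z hz hz'
  · exact Hm1 z hz hz'
  · exact H0m z hz hz'
  · have : ((0 : ℤ), (0 : ℤ)) = 0 := rfl
    rw [this]
    simp
  · exact H01 z hz hz'
  · exact H1m z hz hz'
  · exact H10 z hz hz'
  · exact H11 z hz hz'

end FB.Lat
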