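import Mathlib
import Pool.Agent.FB.Lat.Glue2

/-!
# LAT module: the global logarithmic Bloch function (MP_15d50e_gt)
-/

open Complex Set Metric
open scoped ComplexConjugate Real

namespace FB.Lat

variable {κ : ℂ} {F R P : ℂ → ℂ}

/-- Nearest lattice point. -/
noncomputable def near (z : ℂ) : ℤ × ℤ := (exists_near z).choose

theorem near_le (z : ℂ) : ‖z - lp (near z)‖ ≤ 3 / 4 := (exists_near z).choose_spec.2.2

/-- The global function. -/
noncomputable def gG (κ : ℂ) (P : ℂ → ℂ) (z : ℂ) : ℂ := chi κ (near z) * gD κ P (z - lp (near z))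

theorem gG_eq (h : IsKer κ F R) (hP : IsPrim R P) (hs : Real.sin (κ.re / 2) ≠ 0) (q : ℤ × ℤ)
    {z : ℂ} (hz' : ‖z - lp q‖ < 1) :
    gG κ P z = chi κ q * gD κ P (z - lp q) := by
  have h1 := near_le z
  have e1 : z - lp (near z) - lp (q - near z) = z - lp q := by rw [lp_sub]; ring
  have h2 := overlap h hP hs (q - near z) (z - lp (near z)) (by linarith) (by rw [e1]; exact hz')
  rw [gG, h2, e1, ← mul_assoc, ← chi_add]
  congr 2
  abel

theorem gG_harm (h : IsKer κ F R) (hP : IsPrim R P) (hs : Real.sin (κ.re / 2) ≠ 0) :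
    IsBlochHarm κ 0 (gG κ P) (fun z => F z / 2) := by
  refine ⟨?_, ?_, ?_, ?_⟩
  · exact h.diff.div_const 2
  · intro z hz
    have h1 := near_le z
    set q := near z with hq
    have hz1 : ‖z - lp q‖ < 1 := by linarith
    have hz0 : 0 < ‖z - lp q‖ := hz q
    have d1 := gD_deriv h hP hz0 hz1
    have d2 : HasFDerivAt (fun x : ℂ => gD κ P (x - lp q))
        (dpair (F (z - lp q) / 2) (-(conj (F (-(z - lp q)) / 2)))) z := by
      have := d1.comp z ((hasFDerivAt_id z).sub_const (lp q))
      simpa [Function.comp_def] using this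
    have d3 := d2.const_mul (chi κ q)
    have hev : gG κ P =ᶠ[nhds z] fun x => chi κ q * gD κ P (x - lp q) := by
      have hop : IsOpen {x : ℂ | ‖x - lp q‖ < 1} :=
        isOpen_lt (continuous_id.sub continuous_const).norm continuous_const
      filter_upwards [hop.mem_nhds hz1] with x hx
      exact gG_eq h hP hs q hx
    refine (d3.congr_of_eventuallyEq hev).congr_fderiv ?_
    have e1 : F z = chi κ q * F (z - lp q) := by
      have := h.bloch (z - lp q) (US_zero_sub hz q) q
      rwa [sub_add_cancel] at this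
    have e2 : F (-(z - lp q)) = chi κ q * F (-z) := by
      have := h.bloch (-z) (US_zero_neg hz) q
      rw [← this]
      congr 1
      ring
    have e3 : chi κ q * conj (chi κ q) = 1 := by
      rw [← chi_neg, chi_mul_neg]
    ext v
    simp only [smul_apply, dpair_apply, smul_eq_mul]
    rw [e1, e2, map_div₀, map_div₀, map_mul, Complex.conj_ofNat]
    linear_combination (-(conj (F (-z)) * conj v / 2)) * e3
  · intro z _ p
    have h1 := near_le z
    set q := near z with hq
    have hz1 : ‖z - lp q‖ < 1 := by linarith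
    have e1 : z + lp p - lp (p + q) = z - lp q := by rw [lp_add]; ring
    rw [gG_eq h hP hs (p + q) (by rw [e1]; exact hz1), e1, gG_eq h hP hs q hz1, chi_add]
    ring
  · intro z _
    have h1 := near_le z
    set q := near z with hq
    have hz1 : ‖z - lp q‖ < 1 := by linarith
    have e1 : -z - lp (-q) = -(z - lp q) := by rw [lp_neg]; ring
    rw [gG_eq h hP hs (-q) (by rw [e1, norm_neg]; exact hz1), e1, gD_symm, chi_neg,
      gG_eq h hP hs q hz1, map_mul]

theorem gG_expand (h : IsKer κ F R) (hP : IsPrim R P) (hs : Real.sin (κ.re / 2) ≠ 0) (z : ℂ)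
    (h1 : ‖z‖ < 1) :
    HasSum (fun m : ℕ => -(1 / (2 * ((m : ℂ) + 1))) *
      (eCo R (m + 1) * z ^ (m + 1) + (-1) ^ (m + 1) * conj (eCo R (m + 1)) * conj z ^ (m + 1)))
      (gG κ P z - Real.log ‖z‖ - (gam κ P : ℂ)) := by
  have e1 := gG_eq h hP hs 0 (z := z) (by simpa using h1)
  have e2 : gG κ P z - Real.log ‖z‖ - (gam κ P : ℂ) = gLoc P z - Real.log ‖z‖ := by
    rw [e1, lp_zero, sub_zero, chi_zero, one_mul, gD]
    ring
  rw [e2]
  exact gLoc_expand hP h1

end FB.Lat
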