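import Mathlib
import Pool.Agent.FB.Lat.Mker

/-!
# LAT module: growth of the kernels `M_n` away from the lattice (MP_15d50e_gt)
-/

open Complex Set Metric
open scoped ComplexConjugate Real

namespace FB.Lat

variable {κ : ℂ} {F R : ℂ → ℂ}

theorem pow_exp_bound (m : ℕ) : (1 : ℝ) ≤ Real.exp 1 * (1 - 1 / ((m : ℝ) + 2)) ^ (m + 1) := by
  have hm : (0 : ℝ) < (m : ℝ) + 1 := by positivity
  have h1 : 1 + 1 / ((m : ℝ) + 1) ≤ Real.exp (1 / ((m : ℝ) + 1)) := by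
    have := Real.add_one_le_exp (1 / ((m : ℝ) + 1)); linarith
  have h2 : (1 + 1 / ((m : ℝ) + 1)) ^ (m + 1) ≤ Real.exp 1 := by
    calc (1 + 1 / ((m : ℝ) + 1)) ^ (m + 1) ≤ (Real.exp (1 / ((m : ℝ) + 1))) ^ (m + 1) :=
          pow_le_pow_left₀ (by positivity) h1 _
      _ = Real.exp (((m + 1 : ℕ) : ℝ) * (1 / ((m : ℝ) + 1))) := by rw [Real.exp_nat_mul]
      _ = Real.exp 1 := by congr 1; push_cast; field_simp
  have h3 : (1 + 1 / ((m : ℝ) + 1)) * (1 - 1 / ((m : ℝ) + 2)) = 1 := by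
    field_simp; ring
  have h4 : 0 ≤ 1 - 1 / ((m : ℝ) + 2) := by
    have : 1 / ((m : ℝ) + 2) ≤ 1 := by
      rw [div_le_one (by positivity)]; linarith
    linarith
  calc (1 : ℝ) = ((1 + 1 / ((m : ℝ) + 1)) * (1 - 1 / ((m : ℝ) + 2))) ^ (m + 1) := by
        rw [h3, one_pow]
    _ = (1 + 1 / ((m : ℝ) + 1)) ^ (m + 1) * (1 - 1 / ((m : ℝ) + 2)) ^ (m + 1) := mul_pow _ _ _
    _ ≤ Real.exp 1 * (1 - 1 / ((m : ℝ) + 2)) ^ (m + 1) :=
        mul_le_mul_of_nonneg_right h2 (pow_nonneg h4 _)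

theorem exists_bound_R (h : IsKer κ F R) : ∃ B : ℝ, 0 ≤ B ∧ ∀ w : ℂ, ‖w‖ ≤ 24 / 25 → ‖R w‖ ≤ B := by
  have hc : ContinuousOn R (closedBall (0 : ℂ) (24 / 25)) :=
    h.R_diff.continuousOn.mono (closedBall_subset_ball (by norm_num))
  obtain ⟨B, hB⟩ := (isCompact_closedBall (0 : ℂ) (24 / 25)).exists_bound_of_continuousOn hc
  refine ⟨max B 0, le_max_right _ _, fun w hw => (hB w ?_).trans (le_max_left _ _)⟩
  simpa using hw

theorem mKer_growth (h : IsKer κ F R) : ∃ C : ℝ, ∀ s : ℝ, 0 < s → s ≤ 1 / 4 → ∀ n : ℕ, 1 ≤ n →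
    ∀ z ∈ US s, ‖z.re‖ ≤ 1 / 2 → ‖z.im‖ ≤ 1 / 2 → ‖mKer F n z‖ ≤ C * (s ^ n)⁻¹ * n := by
  obtain ⟨B, hB0, hB⟩ := exists_bound_R h
  have he1 : (1 : ℝ) ≤ Real.exp 1 := by
    have := Real.add_one_le_exp 1; linarith
  have hF : ∀ (w : ℂ) (d : ℝ), 0 < d → d ≤ 1 → d ≤ ‖w‖ → ‖w‖ ≤ 24 / 25 → ‖F w‖ ≤ (1 + B) / d := by
    intro w d hd hd1 hw1 hw2
    rw [h.eq w (by linarith) (by linarith)]
    have h1 : ‖w⁻¹‖ ≤ 1 / d := by
      rw [norm_inv, one_div]
      exact inv_anti₀ hd hw1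
    have h2 : B ≤ B / d := by
      rw [le_div_iff₀ hd]; nlinarith
    calc ‖w⁻¹ + R w‖ ≤ ‖w⁻¹‖ + ‖R w‖ := norm_add_le _ _
      _ ≤ 1 / d + B / d := by linarith [hB w hw2]
      _ = (1 + B) / d := by ring
  refine ⟨(1 + B) * Real.exp 1, ?_⟩
  intro s hs hs4 n hn z hz hre him
  have hznorm : ‖z‖ ≤ 71 / 100 := norm_le_of_box (by simpa using hre) (by simpa using him)
  have hzs : s < ‖z‖ := by simpa using hz 0
  rcases Nat.lt_or_ge n 2 with h2 | h2
  · have hn1 : n = 1 := by omega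
    subst hn1
    rw [mKer_one]
    have := hF z s hs (by linarith) hzs.le (by linarith)
    have h3 : (1 + B) / s ≤ (1 + B) * Real.exp 1 * (s ^ 1)⁻¹ * ((1 : ℕ) : ℝ) := by
      rw [pow_one, Nat.cast_one, mul_one, ← div_eq_mul_inv]
      apply div_le_div_of_nonneg_right _ hs.le
      nlinarith
    linarith
  · obtain ⟨m, rfl⟩ : ∃ m, n = m + 2 := ⟨n - 2, by omega⟩
    have hm2 : (0 : ℝ) < (m : ℝ) + 2 := by positivity
    set a : ℝ := 1 - 1 / ((m : ℝ) + 2) with ha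
    have ha0 : 0 < a := by
      have : 1 / ((m : ℝ) + 2) < 1 := by
        rw [div_lt_one hm2]; linarith [(Nat.cast_nonneg m : (0 : ℝ) ≤ m)]
      rw [ha]; linarith
    have ha1 : a ≤ 1 := by
      have : 0 ≤ 1 / ((m : ℝ) + 2) := by positivity
      rw [ha]; linarith
    have hr : 0 < s * a := by positivity
    have hrs : s * a ≤ 1 / 4 := by nlinarith
    have hd : s / ((m : ℝ) + 2) = s - s * a := by rw [ha]; field_simp; ring
    have hd0 : 0 < s / ((m : ℝ) + 2) := by positivity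
    have hd1 : s / ((m : ℝ) + 2) ≤ 1 := by
      rw [hd]; nlinarith
    have hlow : ∀ w : ℂ, ‖w - z‖ ≤ s * a → s / ((m : ℝ) + 2) ≤ ‖w‖ ∧ ‖w‖ ≤ 24 / 25 := by
      intro w hw
      have h3 : ‖z‖ ≤ ‖w‖ + ‖w - z‖ := by
        have := norm_sub_le w (w - z)
        simpa using this
      have h4 : ‖w‖ ≤ ‖z‖ + ‖w - z‖ := by
        have := norm_add_le z (w - z)
        simpa using this
      constructor
      · rw [hd]; linarith
      · linarith
    have hdiff : DiffContOnCl ℂ F (ball z (s * a)) := by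
      apply DifferentiableOn.diffContOnCl
      apply h.diff.mono
      intro w hw
      rw [closure_ball z hr.ne'] at hw
      have hw' : ‖w - z‖ ≤ s * a := by simpa [dist_eq_norm] using hw
      obtain ⟨h5, h6⟩ := hlow w hw'
      exact mem_US_zero_of_norm (by linarith) (by linarith)
    have hC : ∀ w ∈ sphere z (s * a), ‖F w‖ ≤ (1 + B) / (s / ((m : ℝ) + 2)) := by
      intro w hw
      have hw' : ‖w - z‖ = s * a := by simpa [dist_eq_norm] using hw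
      obtain ⟨h5, h6⟩ := hlow w hw'.le
      exact hF w _ hd0 hd1 h5 h6
    have hmain := norm_iteratedDeriv_le_of_forall_mem_sphere_norm_le (m + 1) hr hdiff hC
    have hM : ‖mKer F (m + 2) z‖ = ((m + 1).factorial : ℝ)⁻¹ * ‖iteratedDeriv (m + 1) F z‖ := by
      simp [mKer]
    have hfac : (0 : ℝ) < ((m + 1).factorial : ℝ) := by exact_mod_cast Nat.factorial_pos _
    have hpe := pow_exp_bound m
    rw [← ha] at hpe
    have hsa : 0 < (s * a) ^ (m + 1) := pow_pos hr _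
    have key : (1 + B) / (s / ((m : ℝ) + 2)) / (s * a) ^ (m + 1) ≤
        (1 + B) * Real.exp 1 * (s ^ (m + 2))⁻¹ * ((m + 2 : ℕ) : ℝ) := by
      rw [div_le_iff₀ hsa]
      have e1 : (1 + B) * Real.exp 1 * (s ^ (m + 2))⁻¹ * ((m + 2 : ℕ) : ℝ) * (s * a) ^ (m + 1) =
          (1 + B) / (s / ((m : ℝ) + 2)) * (Real.exp 1 * a ^ (m + 1)) := by
        rw [mul_pow]; push_cast; field_simp; ring
      rw [e1]
      have : 0 ≤ (1 + B) / (s / ((m : ℝ) + 2)) := by positivity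
      nlinarith
    calc ‖mKer F (m + 2) z‖ = ((m + 1).factorial : ℝ)⁻¹ * ‖iteratedDeriv (m + 1) F z‖ := hM
      _ ≤ ((m + 1).factorial : ℝ)⁻¹ *
          (((m + 1).factorial : ℝ) * ((1 + B) / (s / ((m : ℝ) + 2))) / (s * a) ^ (m + 1)) := by
          gcongr
      _ = (1 + B) / (s / ((m : ℝ) + 2)) / (s * a) ^ (m + 1) := by field_simp
      _ ≤ _ := key

end FB.Lat
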