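import Mathlib
import Pool.Agent.FB.Lat.Growth
import Pool.Agent.FB.Lat.Glue3

/-!
# LAT module: assembly of `IsLat` from the first kernel (MP_15d50e_gt)
-/

open Complex Set Metric
open scoped ComplexConjugate Real

namespace FB.Lat

variable {κ : ℂ} {F R P : ℂ → ℂ}

theorem isLat (h : IsKer κ F R) (hP : IsPrim R P) (hs : Real.sin (κ.re / 2) ≠ 0) :
    IsLat κ (eCo R) (gam κ P) (mKer F) (gG κ P) where
  bloch := fun _ hn => mKer_bloch h hn
  deriv := fun _ hn _ hz => mKer_deriv h hn hz
  expand := fun _ hn z h0 h1 => mKer_expand h hn z h0 h1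
  G_harm := by
    have := gG_harm h hP hs
    simpa only [mKer_one] using this
  G_expand := fun z _ h1 => gG_expand h hP hs z h1
  growth := mKer_growth h

end FB.Lat
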