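import Mathlib
import Pool.Agent.FB.Lat.IsLatProof

/-!
# LAT module: THEOREM LAT from `row` and the bounds (MP_15d50e_gt)
-/

open Complex Set Metric
open scoped ComplexConjugate Real

namespace FB.Lat

/-- Statement of (A): the first kernel exists, with the bound on its regular part. -/
def RowStatement : Prop :=
  ∃ C κ₀ : ℝ, 0 < C ∧ 0 < κ₀ ∧ ∀ κ : ℂ, 0 < ‖κ‖ → ‖κ‖ ≤ κ₀ → ‖κ‖ ≤ 3 * κ.re →
    ∃ F R : ℂ → ℂ, IsKer κ F R ∧ ∀ z : ℂ, ‖z‖ ≤ 4 / 5 → ‖R z + 2 * π * I / κ‖ ≤ C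

/-- Statement of (B) and (C): bounds on the constants. -/
def BoundStatement : Prop :=
  ∀ C : ℝ, 0 < C → ∃ C' κ₀ : ℝ, 0 < C' ∧ 0 < κ₀ ∧ ∀ (κ : ℂ) (F R P : ℂ → ℂ), 0 < ‖κ‖ → ‖κ‖ ≤ κ₀ →
    ‖κ‖ ≤ 3 * κ.re → IsKer κ F R → IsPrim R P → (∀ z : ℂ, ‖z‖ ≤ 4 / 5 → ‖R z + 2 * π * I / κ‖ ≤ C) →
    LatBounds κ C' (eCo R) (gam κ P)

theorem sin_ne {κ : ℂ} (h0 : 0 < ‖κ‖) (h1 : ‖κ‖ ≤ 1) (h2 : ‖κ‖ ≤ 3 * κ.re) :
    Real.sin (κ.re / 2) ≠ 0 := by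
  have h3 : 0 < κ.re := by linarith
  have h4 : κ.re ≤ 1 := by
    have := Complex.re_le_norm κ
    linarith
  have hpi := Real.pi_gt_three
  exact (Real.sin_pos_of_pos_of_lt_pi (by linarith) (by linarith)).ne'

theorem theoremLAT_of (hA : RowStatement) (hB : BoundStatement) : TheoremLAT := by
  obtain ⟨C, κ₀, hC, hκ₀, hrow⟩ := hA
  obtain ⟨C', κ₁, hC', hκ₁, hbd⟩ := hB C hC
  refine ⟨C', min (min κ₀ κ₁) 1, hC', by positivity, ?_⟩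
  intro κ h0 h1 h2
  have h3 : ‖κ‖ ≤ κ₀ := h1.trans ((min_le_left _ _).trans (min_le_left _ _))
  have h4 : ‖κ‖ ≤ κ₁ := h1.trans ((min_le_left _ _).trans (min_le_right _ _))
  have h5 : ‖κ‖ ≤ 1 := h1.trans (min_le_right _ _)
  obtain ⟨F, R, hK, hR⟩ := hrow κ h0 h3 h2
  obtain ⟨P, hP⟩ := exists_prim hK
  exact ⟨eCo R, gam κ P, mKer F, gG κ P, hbd κ F R P h0 h4 h2 hK hP hR,
    isLat hK hP (sin_ne h0 h5 h2)⟩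

end FB.Lat
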