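import Mathlib
import Pool.Agent.FB.Lat.Main

/-!
# LAT module: bounds of the lattice constants (MP_15d50e_gt)
-/

open Complex Set Metric
open scoped ComplexConjugate Real

namespace FB.Lat

variable {κ : ℂ} {F R P : ℂ → ℂ} {C : ℝ}

theorem bound_deriv (h : IsKer κ F R) (hR : ∀ z : ℂ, ‖z‖ ≤ 4 / 5 → ‖R z + 2 * π * I / κ‖ ≤ C)
    (n : ℕ) : ‖iteratedDeriv n (fun z => R z + 2 * π * I / κ) 0‖ ≤
      n.factorial * C / (4 / 5) ^ n := by
  apply norm_iteratedDeriv_le_of_forall_mem_sphere_norm_le n (by norm_num)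
  · apply DifferentiableOn.diffContOnCl
    rw [closure_ball (0 : ℂ) (by norm_num)]
    exact (h.R_diff.mono (closedBall_subset_ball (by norm_num))).add_const _
  · intro z hz
    exact hR z (by simpa using (mem_sphere_zero_iff_norm.mp hz).le)

theorem bound_e1 (hκ : 0 < ‖κ‖)
    (hR : ∀ z : ℂ, ‖z‖ ≤ 4 / 5 → ‖R z + 2 * π * I / κ‖ ≤ C) :
    ‖eCo R 1 * κ - 2 * π * I‖ ≤ C * ‖κ‖ := by
  have h1 := hR 0 (by norm_num)
  have hk0 : κ ≠ 0 := norm_pos_iff.mp hκ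
  have e1 : eCo R 1 * κ - 2 * π * I = -(κ * (R 0 + 2 * π * I / κ)) := by
    simp only [eCo, one_ne_zero, if_false, Nat.sub_self, Nat.factorial_zero, Nat.cast_one, inv_one,
      iteratedDeriv_zero, one_mul]
    field_simp
    ring
  rw [e1, norm_neg, norm_mul, mul_comm]
  exact mul_le_mul_of_nonneg_right h1 hκ.le

theorem bound_ej (h : IsKer κ F R) (hC : 0 ≤ C)
    (hR : ∀ z : ℂ, ‖z‖ ≤ 4 / 5 → ‖R z + 2 * π * I / κ‖ ≤ C) (j : ℕ) (hj : 2 ≤ j) :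
    ‖eCo R j‖ ≤ C * (5 / 4) ^ j := by
  obtain ⟨n, rfl⟩ : ∃ n, j = n + 2 := ⟨j - 2, by omega⟩
  have h1 := bound_deriv h hR (n + 1)
  have e0 : iteratedDeriv (n + 1) (fun z => R z + 2 * π * I / κ) 0 = iteratedDeriv (n + 1) R 0 := by
    rw [iteratedDeriv_succ', iteratedDeriv_succ']
    congr 1
    funext z
    exact deriv_add_const _
  rw [e0] at h1
  have hf : (0 : ℝ) < ((n + 1).factorial : ℝ) := by exact_mod_cast Nat.factorial_pos _
  have e1 : ‖eCo R (n + 2)‖ = ((n + 1).factorial : ℝ)⁻¹ * ‖iteratedDeriv (n + 1) R 0‖ := by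
    simp [eCo]
  rw [e1]
  calc ((n + 1).factorial : ℝ)⁻¹ * ‖iteratedDeriv (n + 1) R 0‖
      ≤ ((n + 1).factorial : ℝ)⁻¹ * (((n + 1).factorial : ℝ) * C / (4 / 5) ^ (n + 1)) := by gcongr
    _ = C * (5 / 4) ^ (n + 1) := by
        rw [show (5 / 4 : ℝ) = (4 / 5)⁻¹ by norm_num, inv_pow]
        field_simp
    _ ≤ C * (5 / 4) ^ (n + 2) := by
        apply mul_le_mul_of_nonneg_left _ hC
        exact pow_le_pow_right₀ (by norm_num) (by omega)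

/-- `g(-1/2) = (i/2) Im E_1 + O(1)`. -/
theorem bound_u (hP : IsPrim R P) (hC : 0 ≤ C)
    (hj : ∀ j : ℕ, 2 ≤ j → ‖eCo R j‖ ≤ C * (5 / 4) ^ j) :
    ‖gLoc P (-(1 / 2)) - ((eCo R 1).im / 2 : ℝ) * I‖ ≤ 2 * C + 1 := by
  have hz : ‖(-(1 / 2) : ℂ)‖ < 1 := by rw [norm_neg, norm_div]; norm_num
  have hs := gLoc_expand hP hz
  have hs' := (hasSum_nat_add_iff' 1).mpr hs
  simp only [Finset.range_one, Finset.sum_singleton] at hs'
  set f : ℕ → ℂ := fun m : ℕ => -(1 / (2 * (((m + 1 : ℕ) : ℂ) + 1))) *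
      (eCo R (m + 1 + 1) * (-(1 / 2)) ^ (m + 1 + 1) + (-1) ^ (m + 1 + 1) *
        conj (eCo R (m + 1 + 1)) * conj (-(1 / 2) : ℂ) ^ (m + 1 + 1)) with hf
  have hfb : ∀ m, ‖f m‖ ≤ C * (25 / 64) * (5 / 8) ^ m := by
    intro m
    have h1 := hj (m + 2) (by omega)
    have n1 : ‖(1 / (2 * (((m + 1 : ℕ) : ℂ) + 1)))‖ ≤ 1 / 2 := by
      rw [norm_div, norm_one]
      have : ‖(2 * (((m + 1 : ℕ) : ℂ) + 1))‖ = 2 * ((m : ℝ) + 2) := by
        rw [norm_mul, Complex.norm_ofNat]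
        congr 1
        rw [show (((m + 1 : ℕ) : ℂ) + 1) = (((m : ℝ) + 2 : ℝ) : ℂ) by push_cast; ring,
          Complex.norm_real, Real.norm_eq_abs, abs_of_nonneg (by positivity)]
      rw [this]
      apply one_div_le_one_div_of_le (by norm_num)
      linarith [(Nat.cast_nonneg m : (0 : ℝ) ≤ m)]
    have n2 : ‖(-(1 / 2) : ℂ)‖ = 1 / 2 := by rw [norm_neg, norm_div]; norm_num
    have n3 : ‖conj (-(1 / 2) : ℂ)‖ = 1 / 2 := by rw [Complex.norm_conj, n2]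
    have n4 : ‖eCo R (m + 1 + 1) * (-(1 / 2)) ^ (m + 1 + 1) + (-1) ^ (m + 1 + 1) *
        conj (eCo R (m + 1 + 1)) * conj (-(1 / 2) : ℂ) ^ (m + 1 + 1)‖ ≤
        2 * (C * (5 / 4) ^ (m + 2) * (1 / 2) ^ (m + 2)) := by
      refine (norm_add_le _ _).trans ?_
      rw [norm_mul, norm_mul, norm_mul, norm_pow, norm_pow, norm_pow, n2, n3, Complex.norm_conj,
        norm_neg, norm_one, one_pow, one_mul]
      have : ‖eCo R (m + 1 + 1)‖ * (1 / 2) ^ (m + 1 + 1) ≤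
          C * (5 / 4) ^ (m + 2) * (1 / 2) ^ (m + 2) :=
        mul_le_mul_of_nonneg_right h1 (by positivity)
      linarith
    rw [hf]
    simp only
    rw [norm_mul, norm_neg]
    calc ‖(1 / (2 * (((m + 1 : ℕ) : ℂ) + 1)))‖ * _
        ≤ (1 / 2) * (2 * (C * (5 / 4) ^ (m + 2) * (1 / 2) ^ (m + 2))) :=
          mul_le_mul n1 n4 (norm_nonneg _) (by norm_num)
      _ = C * ((5 / 4) * (1 / 2)) ^ (m + 2) := by rw [mul_pow]; ring
      _ = C * (25 / 64) * (5 / 8) ^ m := by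
          rw [pow_add, show (5 / 4 * (1 / 2) : ℝ) = 5 / 8 by norm_num]; ring
  have hgeo : HasSum (fun m : ℕ => C * (25 / 64) * (5 / 8 : ℝ) ^ m) (C * (25 / 64) * (1 - 5 / 8)⁻¹) :=
    (hasSum_geometric_of_lt_one (by norm_num) (by norm_num)).mul_left _
  have hnorm := hs'.norm_le_of_bounded hgeo hfb
  have hlog : ‖((Real.log ‖(-(1 / 2) : ℂ)‖ : ℝ) : ℂ)‖ ≤ 7 / 10 := by
    rw [Complex.norm_real, norm_neg, norm_div, norm_one, Complex.norm_ofNat, one_div, Real.log_inv,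
      norm_neg, Real.norm_eq_abs, abs_of_pos (Real.log_pos (by norm_num))]
    have := Real.log_two_lt_d9
    linarith
  have e1 : -(1 / (2 * (((0 : ℕ) : ℂ) + 1))) *
      (eCo R (0 + 1) * (-(1 / 2)) ^ (0 + 1) + (-1) ^ (0 + 1) * conj (eCo R (0 + 1)) *
        conj (-(1 / 2) : ℂ) ^ (0 + 1)) = (((eCo R 1).im / 2 : ℝ) : ℂ) * I := by
    have h3 := Complex.im_eq_sub_conj (eCo R 1)
    rw [show (((eCo R 1).im / 2 : ℝ) : ℂ) = ((eCo R 1).im : ℂ) / 2 by push_cast; ring, h3]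
    have hI : (2 * I : ℂ) ≠ 0 := by simp
    simp only [zero_add, pow_one, Nat.cast_zero, mul_one, map_neg, map_div₀, map_one,
      Complex.conj_ofNat]
    have hI2 : (I : ℂ) ≠ 0 := Complex.I_ne_zero
    field_simp
    ring
  rw [e1] at hnorm
  have e2 : gLoc P (-(1 / 2)) - (((eCo R 1).im / 2 : ℝ) : ℂ) * I =
      (gLoc P (-(1 / 2)) - ((Real.log ‖(-(1 / 2) : ℂ)‖ : ℝ) : ℂ) -
        (((eCo R 1).im / 2 : ℝ) : ℂ) * I) + ((Real.log ‖(-(1 / 2) : ℂ)‖ : ℝ) : ℂ) := by ring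
  rw [e2]
  refine (norm_add_le _ _).trans ?_
  have : C * (25 / 64) * (1 - 5 / 8)⁻¹ ≤ 2 * C := by
    rw [mul_assoc, mul_comm 2 C]
    apply mul_le_mul_of_nonneg_left _ hC
    norm_num
  linarith

theorem im_e1 (hκ : 0 < ‖κ‖) (h1 : ‖eCo R 1 * κ - 2 * π * I‖ ≤ C * ‖κ‖) :
    |(eCo R 1).im - 2 * π * κ.re / ‖κ‖ ^ 2| ≤ C := by
  have hk0 : κ ≠ 0 := norm_pos_iff.mp hκ
  have e1 : (eCo R 1).im - 2 * π * κ.re / ‖κ‖ ^ 2 = (eCo R 1 - 2 * π * I / κ).im := by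
    rw [Complex.sub_im]
    congr 1
    have : (2 * (π : ℂ) * I / κ) = ((2 * π : ℝ) : ℂ) * (I * κ⁻¹) := by push_cast; ring
    rw [this, Complex.im_ofReal_mul, Complex.I_mul_im, Complex.inv_re, Complex.normSq_eq_norm_sq]
    ring
  rw [e1]
  have e2 : eCo R 1 - 2 * π * I / κ = (eCo R 1 * κ - 2 * π * I) / κ := by
    field_simp
  calc |(eCo R 1 - 2 * π * I / κ).im| ≤ ‖eCo R 1 - 2 * π * I / κ‖ := Complex.abs_im_le_norm _
    _ = ‖eCo R 1 * κ - 2 * π * I‖ / ‖κ‖ := by rw [e2, norm_div]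
    _ ≤ C := by rw [div_le_iff₀ hκ]; exact h1

theorem sin_sub_bound {x : ℝ} (h0 : 0 < x) (h1 : x ≤ 1) :
    |2 * π * (Real.sin x - x * Real.cos x)| ≤ 4 * x ^ 2 := by
  have a1 : Real.sin x ≤ x := Real.sin_le h0.le
  have a2 : x - x ^ 3 / 6 < Real.sin x := Real.sin_gt_sub_cube h0
  have a3 : 1 - x ^ 2 / 2 ≤ Real.cos x := Real.one_sub_sq_div_two_le_cos
  have a4 : Real.cos x ≤ 1 := Real.cos_le_one x
  have hpi : π < 4 := Real.pi_lt_four
  have hpi0 : 0 < π := Real.pi_pos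
  have b1 : Real.sin x - x * Real.cos x ≤ x ^ 2 / 2 := by nlinarith
  have b2 : -(x ^ 2 / 2) ≤ Real.sin x - x * Real.cos x := by nlinarith [pow_pos h0 2]
  have b3 : |Real.sin x - x * Real.cos x| ≤ x ^ 2 / 2 := abs_le.mpr ⟨b2, b1⟩
  rw [abs_mul, abs_of_pos (by positivity : (0 : ℝ) < 2 * π)]
  calc 2 * π * |Real.sin x - x * Real.cos x| ≤ 2 * 4 * (x ^ 2 / 2) := by
        apply mul_le_mul (by linarith) b3 (abs_nonneg _) (by norm_num)
    _ = 4 * x ^ 2 := by ring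

theorem bound_gam (hP : IsPrim R P) (hC : 0 ≤ C) (h0 : 0 < ‖κ‖) (h1 : ‖κ‖ ≤ 1)
    (h2 : ‖κ‖ ≤ 3 * κ.re) (hj : ∀ j : ℕ, 2 ≤ j → ‖eCo R j‖ ≤ C * (5 / 4) ^ j)
    (he : ‖eCo R 1 * κ - 2 * π * I‖ ≤ C * ‖κ‖) :
    |gam κ P * ‖κ‖ ^ 2 + 2 * π| ≤ (36 * C + 24) * ‖κ‖ := by
  have hre : κ.re ≤ ‖κ‖ := Complex.re_le_norm κ
  have hre0 : 0 < κ.re := by linarith
  set x : ℝ := κ.re / 2 with hx
  have hx0 : 0 < x := by rw [hx]; linarith
  have hx1 : x ≤ 1 := by rw [hx]; linarith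
  have hsx : x / 2 ≤ Real.sin x := by
    have := Real.sin_gt_sub_cube hx0
    nlinarith [pow_pos hx0 2]
  have hs0 : 0 < Real.sin x := by linarith
  set u := gLoc P (-(1 / 2)) with hu
  set e := cexp ((x : ℂ) * I) with hee
  have hen : ‖e‖ = 1 := by rw [hee, Complex.norm_exp_ofReal_mul_I]
  have hub := bound_u hP hC hj
  rw [← hu] at hub
  have him := im_e1 h0 he
  set A : ℝ := π * κ.re / ‖κ‖ ^ 2 with hA
  have hk2 : 0 < ‖κ‖ ^ 2 := by positivity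
  -- `u = i A + O(5C/2 + 1)`
  have hu2 : ‖u - (A : ℂ) * I‖ ≤ 3 * C + 1 := by
    have e1 : u - (A : ℂ) * I = (u - (((eCo R 1).im / 2 : ℝ) : ℂ) * I) +
        (((eCo R 1).im / 2 - A : ℝ) : ℂ) * I := by push_cast; ring
    rw [e1]
    refine (norm_add_le _ _).trans ?_
    rw [norm_mul, Complex.norm_I, mul_one, Complex.norm_real, Real.norm_eq_abs]
    have e2 : (eCo R 1).im / 2 - A = ((eCo R 1).im - 2 * π * κ.re / ‖κ‖ ^ 2) / 2 := by
      rw [hA]; ring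
    rw [e2, abs_div, abs_two]
    linarith
  have him2 : |(e * u).im - A * Real.cos x| ≤ 3 * C + 1 := by
    have e1 : (e * u).im - A * Real.cos x = (e * (u - (A : ℂ) * I)).im := by
      have : (e * ((A : ℂ) * I)).im = A * Real.cos x := by
        have h3 : e.re = Real.cos x := by rw [hee, Complex.exp_ofReal_mul_I_re]
        rw [Complex.mul_im]
        simp [h3]
        ring
      rw [mul_sub, Complex.sub_im, this]
    rw [e1]
    calc |(e * (u - (A : ℂ) * I)).im| ≤ ‖e * (u - (A : ℂ) * I)‖ := Complex.abs_im_le_norm _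
      _ = ‖u - (A : ℂ) * I‖ := by rw [norm_mul, hen, one_mul]
      _ ≤ _ := hu2
  have hg : gam κ P * ‖κ‖ ^ 2 + 2 * π =
      (2 * π * (Real.sin x - x * Real.cos x) - ((e * u).im - A * Real.cos x) * ‖κ‖ ^ 2) /
        Real.sin x := by
    have e1 : gam κ P = -(e * u).im / Real.sin x := by
      rw [gam, ← hu, ← hx, ← hee]
    have e2 : A * ‖κ‖ ^ 2 = π * (2 * x) := by
      rw [hA, hx]; field_simp
    rw [e1, eq_div_iff hs0.ne']
    have e3 : -(e * u).im / Real.sin x * ‖κ‖ ^ 2 * Real.sin x = -(e * u).im * ‖κ‖ ^ 2 := by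
      field_simp
    rw [add_mul, e3]
    linear_combination (-Real.cos x) * e2
  rw [hg, abs_div, abs_of_pos hs0, div_le_iff₀ hs0]
  have b1 := sin_sub_bound hx0 hx1
  have b2 : |2 * π * (Real.sin x - x * Real.cos x) - ((e * u).im - A * Real.cos x) * ‖κ‖ ^ 2| ≤
      4 * x ^ 2 + (3 * C + 1) * ‖κ‖ ^ 2 := by
    refine (abs_sub _ _).trans ?_
    rw [abs_mul ((e * u).im - A * Real.cos x), abs_of_pos hk2]
    have := mul_le_mul_of_nonneg_right him2 hk2.le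
    linarith
  have hxk : x ≤ ‖κ‖ / 2 := by rw [hx]; linarith
  have b3 : 4 * x ^ 2 ≤ ‖κ‖ ^ 2 := by nlinarith
  have hkx : ‖κ‖ ≤ 12 * (x / 2) := by rw [hx]; linarith
  have b4 : (3 * C + 2) * ‖κ‖ * ‖κ‖ ≤ (3 * C + 2) * ‖κ‖ * (12 * (x / 2)) :=
    mul_le_mul_of_nonneg_left hkx (by positivity)
  have b5 : (3 * C + 2) * ‖κ‖ * (12 * (x / 2)) ≤ (3 * C + 2) * ‖κ‖ * (12 * Real.sin x) :=
    mul_le_mul_of_nonneg_left (by linarith) (by positivity)
  calc _ ≤ 4 * x ^ 2 + (3 * C + 1) * ‖κ‖ ^ 2 := b2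
    _ ≤ (3 * C + 2) * ‖κ‖ * ‖κ‖ := by nlinarith
    _ ≤ (3 * C + 2) * ‖κ‖ * (12 * Real.sin x) := b4.trans b5
    _ = (36 * C + 24) * ‖κ‖ * Real.sin x := by ring

theorem boundStatement : BoundStatement := by
  intro C hC
  refine ⟨36 * C + 24, 1, by positivity, one_pos, ?_⟩
  intro κ F R P h0 h1 h2 hK hP hR
  have e1 := bound_e1 h0 hR
  have ej := bound_ej hK hC.le hR
  refine ⟨?_, ?_, ?_⟩
  · refine e1.trans ?_
    apply mul_le_mul_of_nonneg_right _ h0.le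
    linarith
  · intro j hj
    refine (ej j hj).trans ?_
    apply mul_le_mul_of_nonneg_right _ (by positivity)
    linarith
  · exact bound_gam hP hC.le h0 h1 h2 ej e1

end FB.Lat
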