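import Pool.Agent.FB.Iface

/-!
# Cauchy estimates for the coefficients of a convergent power series
-/

open Complex Set Metric
open scoped ComplexConjugate Real ENNReal NNReal

namespace FB

/-- Cauchy estimate: if `F z = Σ c_n z^n` on the unit disc and `‖F‖ ≤ B` on the circle `‖z‖ = r`,
`0 < r < 1`, then `‖c_n‖ ≤ B / r^n`. -/
theorem lat_coeff_bound {c : ℕ → ℂ} {F : ℂ → ℂ} {r B : ℝ} (hr : 0 < r) (hr1 : r < 1)
    (hF : ∀ z : ℂ, ‖z‖ < 1 → HasSum (fun n : ℕ => c n * z ^ n) (F z))
    (hB : ∀ z : ℂ, ‖z‖ = r → ‖F z‖ ≤ B) (n : ℕ) : ‖c n‖ ≤ B * r⁻¹ ^ n := by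
  have hps : HasFPowerSeriesOnBall F (FormalMultilinearSeries.ofScalars ℂ c) 0 1 := by
    refine ⟨?_, one_pos, ?_⟩
    · refine ENNReal.le_of_forall_nnreal_lt fun s hs => ?_
      have hs1 : (s : ℝ) < 1 := by
        have : (s : ℝ≥0∞) < ((1 : ℝ≥0) : ℝ≥0∞) := by simpa using hs
        exact_mod_cast ENNReal.coe_lt_coe.mp this
      apply FormalMultilinearSeries.le_radius_of_summable
      have h1 := (hF (s : ℝ) (by
        rw [Complex.norm_real, Real.norm_of_nonneg s.coe_nonneg]; exact hs1)).summable.norm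
      refine h1.congr fun n => ?_
      rw [FormalMultilinearSeries.ofScalars_norm, norm_mul, norm_pow, Complex.norm_real,
        Real.norm_of_nonneg s.coe_nonneg]
    · intro y hy
      have hy1 : ‖y‖ < 1 := by
        have h1 : edist y 0 < 1 := hy
        rwa [edist_dist, dist_zero_right, ENNReal.ofReal_lt_one] at h1
      rw [zero_add]
      have := hF y hy1
      refine this.congr_fun fun n => ?_
      rw [FormalMultilinearSeries.ofScalars_apply_eq, smul_eq_mul]
  obtain ⟨R, hR⟩ : ∃ R : ℝ≥0, (R : ℝ) = r := ⟨⟨r, hr.le⟩, rfl⟩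
  have hR0 : 0 < R := by
    have : (0 : ℝ) < R := by rw [hR]; exact hr
    exact_mod_cast this
  have hdiff : DifferentiableOn ℂ F (closedBall 0 R) := by
    refine hps.differentiableOn.mono fun z hz => ?_
    have h1 : ‖z‖ ≤ R := by simpa using hz
    show edist z 0 < 1
    rw [edist_dist, dist_zero_right, ENNReal.ofReal_lt_one]
    rw [hR] at h1
    linarith
  have h2 := hdiff.hasFPowerSeriesOnBall hR0
  have h3 := HasFPowerSeriesAt.eq_formalMultilinearSeries ⟨_, hps⟩ ⟨_, h2⟩
  have h4 : ‖c n‖ = ‖cauchyPowerSeries F 0 R n‖ := by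
    rw [← h3, FormalMultilinearSeries.ofScalars_norm]
  rw [h4]
  refine (norm_cauchyPowerSeries_le F 0 R n).trans ?_
  rw [hR, abs_of_pos hr]
  refine mul_le_mul_of_nonneg_right ?_ (by positivity)
  have h5 : ∫ θ in (0 : ℝ)..2 * π, ‖F (circleMap 0 r θ)‖ ≤ ∫ θ in (0 : ℝ)..2 * π, B := by
    refine intervalIntegral.integral_mono_on (by positivity) ?_ intervalIntegrable_const
      fun θ _ => hB _ (by simp [abs_of_pos hr])
    refine Continuous.intervalIntegrable ?_ _ _
    refine continuous_norm.comp ?_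
    refine ContinuousOn.comp_continuous hdiff.continuousOn (continuous_circleMap 0 r) fun θ => ?_
    rw [mem_closedBall, dist_zero_right, hR]
    simp [abs_of_pos hr]
  rw [intervalIntegral.integral_const, sub_zero, smul_eq_mul] at h5
  calc (2 * π)⁻¹ * ∫ θ in (0 : ℝ)..2 * π, ‖F (circleMap 0 r θ)‖ ≤ (2 * π)⁻¹ * (2 * π * B) :=
        mul_le_mul_of_nonneg_left h5 (by positivity)
    _ = B := by field_simp

end FB
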