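import Pool.Agent.FB.Lat.Main

/-!
# Bounds for the lattice constants `E_j`
-/

open Complex Set Metric Filter Topology
open scoped ComplexConjugate Real

namespace FB.Lat

variable {κ : ℂ} {F R : ℂ → ℂ} {C : ℝ}

theorem e_one (hk : 0 < ‖κ‖) (hb : ∀ z : ℂ, ‖z‖ ≤ 4 / 5 → ‖R z + 2 * π * I / κ‖ ≤ C) :
    ‖eCo R 1 * κ - 2 * π * I‖ ≤ C * ‖κ‖ := by
  have hκ : κ ≠ 0 := norm_pos_iff.mp hk
  have e : eCo R 1 * κ - 2 * π * I = -((R 0 + 2 * π * I / κ) * κ) := by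
    have e1 : eCo R 1 = -R 0 := by simp [eCo]
    rw [e1, add_mul, div_mul_cancel₀ _ hκ]
    ring
  rw [e, norm_neg, norm_mul]
  exact mul_le_mul_of_nonneg_right (hb 0 (by norm_num)) (norm_nonneg _)

theorem e_big (hR : DifferentiableOn ℂ R (ball 0 1))
    (hb : ∀ z : ℂ, ‖z‖ ≤ 4 / 5 → ‖R z + 2 * π * I / κ‖ ≤ C) {j : ℕ} (hj : 2 ≤ j) :
    ‖eCo R j‖ ≤ C * (5 / 4) ^ j := by
  obtain ⟨n, rfl⟩ : ∃ n, j = n + 1 := ⟨j - 1, by omega⟩
  have hn : 0 < n := by omega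
  have hC : 0 ≤ C := (norm_nonneg _).trans (hb 0 (by norm_num))
  have hsub : closedBall (0 : ℂ) (4 / 5) ⊆ ball 0 1 := closedBall_subset_ball (by norm_num)
  have hcl : DiffContOnCl ℂ (fun w => 2 * π * I / κ + R w) (ball 0 (4 / 5)) :=
    ((hR.const_add (2 * π * I / κ)).mono hsub).diffContOnCl_ball subset_rfl
  have h1 := Complex.norm_iteratedDeriv_le_of_forall_mem_sphere_norm_le (c := 0) (R := 4 / 5)
    (C := C) n (by norm_num) hcl (fun z hz => by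
      have hz' : ‖z‖ = 4 / 5 := by simpa using hz
      rw [add_comm]
      exact hb z hz'.le)
  have h2 : iteratedDeriv n (fun w => 2 * π * I / κ + R w) = iteratedDeriv n R :=
    funext fun w => by rw [iteratedDeriv_const_add hn]
  rw [h2] at h1
  have h3 : eCo R (n + 1) = -((n.factorial : ℂ)⁻¹ * iteratedDeriv n R 0) := by
    simp [eCo]
  rw [h3, norm_neg, norm_mul, norm_inv, Complex.norm_natCast]
  have hf : (0 : ℝ) < n.factorial := by exact_mod_cast Nat.factorial_pos n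
  calc ((n.factorial : ℝ))⁻¹ * ‖iteratedDeriv n R 0‖
      ≤ ((n.factorial : ℝ))⁻¹ * (n.factorial * C / (4 / 5) ^ n) :=
        mul_le_mul_of_nonneg_left h1 (by positivity)
    _ = C * (5 / 4) ^ n := by
        have e : (5 / 4 : ℝ) = (4 / 5)⁻¹ := by norm_num
        rw [e, inv_pow]
        field_simp
    _ ≤ C * (5 / 4) ^ (n + 1) := by
        refine mul_le_mul_of_nonneg_left ?_ hC
        exact pow_le_pow_right₀ (by norm_num) (by omega)

/-- (B) -/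
theorem e_bounds (hk : 0 < ‖κ‖) (h : IsKer κ F R)
    (hb : ∀ z : ℂ, ‖z‖ ≤ 4 / 5 → ‖R z + 2 * π * I / κ‖ ≤ C) :
    ‖eCo R 1 * κ - 2 * π * I‖ ≤ C * ‖κ‖ ∧ ∀ j : ℕ, 2 ≤ j → ‖eCo R j‖ ≤ C * (5 / 4) ^ j :=
  ⟨e_one hk hb, fun _ hj => e_big h.R_diff hb hj⟩

end FB.Lat
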