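import Pool.Agent.FB.Lat.Row
import Pool.Agent.FB.Lat.Main

/-!
# Proof of RowStatement
-/

open Complex Set Metric Filter Topology
open scoped ComplexConjugate Real

namespace FB.Lat

theorem isKer_row {κ : ℂ} (h0 : 0 < κ.re) (h1 : κ.re ≤ 1) : IsKer κ (FM κ) (RM κ) where
  diff := FM_diff h0 h1
  bloch := fun z _ p => FM_bloch κ z p
  R_diff := (R0_diff κ.re).add (FS_diff h0 h1)
  eq := by
    intro z hz _
    rw [FM_eq h0 h1, RM, R0_eq κ.re (norm_pos_iff.mp hz)]
    ring

theorem rowStatement : RowStatement := by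
  obtain ⟨C, hC, hb⟩ := R0_bound
  have hpi := Real.pi_pos
  have hCT := CT_nonneg
  refine ⟨C + (CT + 12 * π), 1 / 2, by positivity, by norm_num, fun κ hk hk1 hk3 => ?_⟩
  have h0 : 0 < κ.re := by linarith
  have h1 : κ.re ≤ 1 := by
    have := Complex.re_le_norm κ
    linarith
  refine ⟨FM κ, RM κ, isKer_row h0 h1, fun z hz => ?_⟩
  have hd : DifferentiableOn ℂ (fun w => RM κ w + 2 * π * I / κ) (ball 0 1) :=
    ((R0_diff κ.re).add (FS_diff h0 h1)).add_const _
  have hsub : closedBall (0 : ℂ) (4 / 5) ⊆ ball 0 1 := closedBall_subset_ball (by norm_num)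
  have hcl : DiffContOnCl ℂ (fun w => RM κ w + 2 * π * I / κ) (ball 0 (4 / 5)) :=
    (hd.mono hsub).diffContOnCl_ball subset_rfl
  have hz' : z ∈ closure (ball (0 : ℂ) (4 / 5)) := by
    rw [closure_ball _ (by norm_num)]
    simpa using hz
  refine Complex.norm_le_of_forall_mem_frontier_norm_le isBounded_ball hcl (fun w hw => ?_) hz'
  rw [frontier_ball _ (by norm_num)] at hw
  have hw' : ‖w‖ = 4 / 5 := by simpa using hw
  have e : RM κ w + 2 * π * I / κ = R0 κ.re w + (FS κ w + 2 * π * I / κ) := by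
    rw [RM]
    ring
  show ‖RM κ w + 2 * π * I / κ‖ ≤ _
  rw [e]
  exact (norm_add_le _ _).trans (add_le_add (hb κ.re h0.le h1 w hw') (FS_bound h0 hk1 hw'.le))

end FB.Lat
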