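import Mathlib
import Pool.Agent.FB.Lat.Bnd
import Pool.Agent.FB.Lat.RowMain

/-!
# LAT module: THEOREM LAT (MP_15d50e_gt)
-/

namespace FB.Lat

theorem theoremLAT : TheoremLAT := theoremLAT_of rowStatement boundStatement

end FB.Lat
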