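import Pool.Agent.FB.Iface

/-!
# The kernel of one row

`Kf a z = -2πi e^{i a z}/(1 - e^{2πi z})` (`= Σ_n e^{i a n}/(z-n)` for `0 < a < 2π`): quasi-periodicity,
differentiability, exponential bounds away from the real axis, behaviour near `0`.
-/

open Complex Set Metric Filter Topology
open scoped ComplexConjugate Real

namespace FB.Lat

/-- the kernel of one row -/
noncomputable def Kf (a : ℝ) (z : ℂ) : ℂ :=
  -(2 * π * I) * cexp (I * a * z) / (1 - cexp (2 * π * I * z))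

theorem exp_ne_one {z : ℂ} (h : ∀ n : ℤ, z ≠ n) : 1 - cexp (2 * π * I * z) ≠ 0 := by
  intro h0
  have h1 : cexp (2 * π * I * z) = 1 := (sub_eq_zero.mp h0).symm
  obtain ⟨n, hn⟩ := Complex.exp_eq_one_iff.mp h1
  apply h n
  have h2 : (2 * π * I : ℂ) ≠ 0 := two_pi_I_ne_zero
  have h3 : 2 * π * I * z = 2 * π * I * n := by rw [hn]; ring
  exact mul_left_cancel₀ h2 h3

theorem Kf_add_int (a : ℝ) (z : ℂ) (n : ℤ) :
    Kf a (z + n) = cexp (I * a * n) * Kf a z := by
  unfold Kf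
  have h1 : cexp (2 * π * I * (z + n)) = cexp (2 * π * I * z) := by
    rw [mul_add, Complex.exp_add]
    have : cexp (2 * π * I * n) = 1 := by
      rw [Complex.exp_eq_one_iff]
      exact ⟨n, by ring⟩
    rw [this, mul_one]
  rw [h1, mul_add, Complex.exp_add]
  ring

theorem Kf_diffAt (a : ℝ) {z : ℂ} (h : ∀ n : ℤ, z ≠ n) : DifferentiableAt ℂ (Kf a) z := by
  unfold Kf
  refine DifferentiableAt.div (by fun_prop) (by fun_prop) (exp_ne_one h)

theorem norm_exp_two_pi (z : ℂ) : ‖cexp (2 * π * I * z)‖ = Real.exp (-(2 * π * z.im)) := by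
  rw [Complex.norm_exp]
  congr 1
  simp

theorem norm_exp_a (a : ℝ) (z : ℂ) : ‖cexp (I * a * z)‖ = Real.exp (-(a * z.im)) := by
  rw [Complex.norm_exp]
  congr 1
  simp

theorem norm_Kf (a : ℝ) (z : ℂ) :
    ‖Kf a z‖ = 2 * π * Real.exp (-(a * z.im)) / ‖1 - cexp (2 * π * I * z)‖ := by
  unfold Kf
  rw [norm_div, norm_mul, norm_neg, norm_exp_a]
  congr 2
  simp [abs_of_pos Real.pi_pos]

theorem exp_two_fifths : Real.exp (-(2 * π * (1 / 5))) ≤ 1 / 2 := by
  have h1 : (1 : ℝ) ≤ 2 * π * (1 / 5) := by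
    have := Real.pi_gt_three
    linarith
  have h2 : Real.exp (-(2 * π * (1 / 5))) ≤ Real.exp (-1) :=
    Real.exp_le_exp.mpr (by linarith)
  have h3 : Real.exp (-1) ≤ 1 / 2 := by
    rw [Real.exp_neg, inv_eq_one_div]
    apply one_div_le_one_div_of_le (by norm_num)
    have := Real.add_one_le_exp (1 : ℝ)
    linarith
  exact h2.trans h3

/-- lower half plane -/
theorem Kf_low {a : ℝ} (ha1 : a ≤ 1) {z : ℂ} (hz : z.im ≤ -(1 / 5)) :
    ‖Kf a z‖ ≤ 4 * π * Real.exp z.im := by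
  have hpi := Real.pi_gt_three
  have hw : Real.exp (-(2 * π * z.im)) / 2 ≤ ‖1 - cexp (2 * π * I * z)‖ := by
    have h1 : ‖cexp (2 * π * I * z)‖ - ‖(1 : ℂ)‖ ≤ ‖1 - cexp (2 * π * I * z)‖ := by
      rw [norm_sub_rev]
      exact norm_sub_norm_le _ _
    rw [norm_exp_two_pi, norm_one] at h1
    have h2 : (2 : ℝ) ≤ Real.exp (-(2 * π * z.im)) := by
      have h3 : (1 : ℝ) ≤ -(2 * π * z.im) := by nlinarith
      have h4 := Real.add_one_le_exp (-(2 * π * z.im))
      linarith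
    linarith
  rw [norm_Kf, div_le_iff₀ (lt_of_lt_of_le (by positivity) hw)]
  have h5 : Real.exp (-(a * z.im)) ≤ Real.exp z.im * Real.exp (-(2 * π * z.im)) := by
    rw [← Real.exp_add]
    apply Real.exp_le_exp.mpr
    nlinarith
  calc 2 * π * Real.exp (-(a * z.im)) ≤ 2 * π * (Real.exp z.im * Real.exp (-(2 * π * z.im))) :=
        mul_le_mul_of_nonneg_left h5 (by positivity)
    _ = 4 * π * Real.exp z.im * (Real.exp (-(2 * π * z.im)) / 2) := by ring
    _ ≤ _ := mul_le_mul_of_nonneg_left hw (by positivity)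

theorem den_up {z : ℂ} (hz : 1 / 5 ≤ z.im) : 1 / 2 ≤ ‖1 - cexp (2 * π * I * z)‖ := by
  have h1 : ‖(1 : ℂ)‖ - ‖cexp (2 * π * I * z)‖ ≤ ‖1 - cexp (2 * π * I * z)‖ := norm_sub_norm_le _ _
  rw [norm_exp_two_pi, norm_one] at h1
  have h2 : Real.exp (-(2 * π * z.im)) ≤ Real.exp (-(2 * π * (1 / 5))) := by
    apply Real.exp_le_exp.mpr
    have := Real.pi_pos
    nlinarith
  have := exp_two_fifths
  linarith

/-- upper half plane -/
theorem Kf_up {a : ℝ} {z : ℂ} (hz : 1 / 5 ≤ z.im) :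
    ‖Kf a z‖ ≤ 4 * π * Real.exp (-(a * z.im)) := by
  have h := den_up hz
  rw [norm_Kf, div_le_iff₀ (lt_of_lt_of_le (by norm_num) h)]
  have h0 : 0 < Real.exp (-(a * z.im)) := Real.exp_pos _
  have := Real.pi_pos
  have h1 : 0 ≤ 4 * π * Real.exp (-(a * z.im)) := by positivity
  calc 2 * π * Real.exp (-(a * z.im)) = 4 * π * Real.exp (-(a * z.im)) * (1 / 2) := by ring
    _ ≤ _ := mul_le_mul_of_nonneg_left h h1

/-- upper half plane, leading term removed -/
theorem Kf_up_sub {a : ℝ} (ha : 0 ≤ a) {z : ℂ} (hz : 1 / 5 ≤ z.im) :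
    ‖Kf a z + 2 * π * I * cexp (I * a * z)‖ ≤ 4 * π * Real.exp (-z.im) := by
  have h := den_up hz
  have hne : 1 - cexp (2 * π * I * z) ≠ 0 := by
    rw [← norm_pos_iff]; linarith
  have e : Kf a z + 2 * π * I * cexp (I * a * z) =
      -(2 * π * I) * cexp (I * a * z) * cexp (2 * π * I * z) / (1 - cexp (2 * π * I * z)) := by
    unfold Kf
    field_simp
    ring
  rw [e, norm_div, norm_mul, norm_mul, norm_neg, norm_exp_a, norm_exp_two_pi,
    div_le_iff₀ (lt_of_lt_of_le (by norm_num) h)]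
  have e2 : ‖(2 * π * I : ℂ)‖ = 2 * π := by simp [abs_of_pos Real.pi_pos]
  rw [e2]
  have hpi := Real.pi_gt_three
  have h3 : Real.exp (-(a * z.im)) * Real.exp (-(2 * π * z.im)) ≤ Real.exp (-z.im) := by
    rw [← Real.exp_add]
    apply Real.exp_le_exp.mpr
    nlinarith [mul_nonneg ha (by linarith : (0 : ℝ) ≤ z.im)]
  calc 2 * π * Real.exp (-(a * z.im)) * Real.exp (-(2 * π * z.im))
      = 2 * π * (Real.exp (-(a * z.im)) * Real.exp (-(2 * π * z.im))) := by ring
    _ ≤ 2 * π * Real.exp (-z.im) := mul_le_mul_of_nonneg_left h3 (by positivity)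
    _ = 4 * π * Real.exp (-z.im) * (1 / 2) := by ring
    _ ≤ _ := mul_le_mul_of_nonneg_left h (by positivity)

end FB.Lat
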