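import Pool.Agent.FB.Lat.Rows

/-!
# The Bloch kernel with one simple pole: construction and uniform bound of the regular part
-/

open Complex Set Metric Filter Topology
open scoped ComplexConjugate Real

namespace FB.Lat

/-- `φ(z) = (e^{2πiz} - 1)/(2πiz)` -/
noncomputable def phiD (z : ℂ) : ℂ := dslope (fun w => cexp (2 * π * I * w)) 0 z / (2 * π * I)

/-- `ψ_a(z) = e^{iaz}/φ(z)` -/
noncomputable def psiD (a : ℝ) (z : ℂ) : ℂ := cexp (I * a * z) / phiD z

/-- regular part of `Kf` -/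
noncomputable def R0 (a : ℝ) : ℂ → ℂ := dslope (psiD a) 0

theorem phiD_zero : phiD 0 = 1 := by
  rw [phiD, dslope_same]
  have h : HasDerivAt (fun w : ℂ => cexp (2 * π * I * w)) (cexp (2 * π * I * 0) * (2 * π * I)) 0 := by
    have := (((hasDerivAt_id (0 : ℂ)).const_mul (2 * π * I))).cexp
    simpa using this
  rw [h.deriv]
  simp [Real.pi_ne_zero]

theorem phiD_ne {z : ℂ} (h : z ≠ 0) : phiD z = (cexp (2 * π * I * z) - 1) / (2 * π * I * z) := by
  rw [phiD, dslope_of_ne _ h, slope_def_field]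
  have : (2 * π * I : ℂ) ≠ 0 := two_pi_I_ne_zero
  simp only [mul_zero, Complex.exp_zero, sub_zero]
  field_simp

theorem ne_int_of_norm {z : ℂ} (h0 : z ≠ 0) (hz : ‖z‖ < 1) (n : ℤ) : z ≠ n := by
  intro h
  by_cases hn : n = 0
  · rw [hn] at h
    exact h0 (by simpa using h)
  · have h2 : (1 : ℝ) ≤ |(n : ℝ)| := by
      have : (1 : ℤ) ≤ |n| := Int.one_le_abs hn
      exact_mod_cast this
    rw [h, Complex.norm_intCast] at hz
    linarith

theorem phiD_ne_zero {z : ℂ} (hz : ‖z‖ < 1) : phiD z ≠ 0 := by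
  by_cases h : z = 0
  · rw [h, phiD_zero]
    exact one_ne_zero
  · rw [phiD_ne h]
    have h1 := exp_ne_one (ne_int_of_norm h hz)
    refine div_ne_zero ?_ (mul_ne_zero two_pi_I_ne_zero h)
    intro h2
    apply h1
    rw [← neg_sub, h2, neg_zero]

theorem phiD_diff : Differentiable ℂ phiD := by
  unfold phiD
  have h1 : DifferentiableOn ℂ (dslope (fun w : ℂ => cexp (2 * π * I * w)) 0) univ := by
    rw [Complex.differentiableOn_dslope univ_mem]
    exact Differentiable.differentiableOn (by fun_prop)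
  exact (differentiableOn_univ.mp h1).div_const _

theorem psiD_diff (a : ℝ) : DifferentiableOn ℂ (psiD a) (ball 0 1) := by
  intro z hz
  refine DifferentiableAt.differentiableWithinAt ?_
  unfold psiD
  exact DifferentiableAt.div (by fun_prop) phiD_diff.differentiableAt
    (phiD_ne_zero (by simpa using hz))

theorem R0_diff (a : ℝ) : DifferentiableOn ℂ (R0 a) (ball 0 1) := by
  unfold R0
  rw [Complex.differentiableOn_dslope (ball_mem_nhds _ one_pos)]
  exact psiD_diff a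

theorem R0_eq (a : ℝ) {z : ℂ} (h : z ≠ 0) : R0 a z = Kf a z - z⁻¹ := by
  rw [R0, dslope_of_ne _ h, slope_def_field]
  have h1 : psiD a 0 = 1 := by simp [psiD, phiD_zero]
  rw [h1, psiD, phiD_ne h, Kf]
  have h2 : (2 * π * I : ℂ) ≠ 0 := two_pi_I_ne_zero
  by_cases h3 : cexp (2 * π * I * z) = 1
  · rw [h3]
    simp
    ring
  · have h4 : cexp (2 * π * I * z) - 1 ≠ 0 := sub_ne_zero.mpr h3
    have h5 : 1 - cexp (2 * π * I * z) = -(cexp (2 * π * I * z) - 1) := by ring
    rw [div_div_eq_mul_div, sub_zero, h5]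
    generalize cexp (2 * π * I * z) - 1 = w at h4 ⊢
    generalize cexp (I * a * z) = u
    generalize (2 * π * I : ℂ) = c at h2 ⊢
    field_simp

/-- uniform bound on the circle -/
theorem R0_bound : ∃ C : ℝ, 0 ≤ C ∧ ∀ a : ℝ, 0 ≤ a → a ≤ 1 → ∀ z : ℂ, ‖z‖ = 4 / 5 → ‖R0 a z‖ ≤ C := by
  have hK : IsCompact (sphere (0 : ℂ) (4 / 5)) := isCompact_sphere _ _
  have hc : ContinuousOn (fun z : ℂ => (1 - cexp (2 * π * I * z))⁻¹) (sphere (0 : ℂ) (4 / 5)) := by
    refine ContinuousOn.inv₀ (by fun_prop) fun z hz => ?_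
    have hz' : ‖z‖ = 4 / 5 := by simpa using hz
    refine exp_ne_one (ne_int_of_norm ?_ (by rw [hz']; norm_num))
    rw [← norm_pos_iff, hz']
    norm_num
  obtain ⟨D, hD⟩ := hK.exists_bound_of_continuousOn hc
  refine ⟨2 * π * Real.exp 1 * |D| + 5 / 4, by have := Real.pi_pos; positivity, fun a ha ha1 z hz => ?_⟩
  have h0 : z ≠ 0 := by
    rw [← norm_pos_iff, hz]
    norm_num
  rw [R0_eq a h0]
  refine (norm_sub_le _ _).trans (add_le_add ?_ ?_)
  · rw [norm_Kf, div_eq_mul_inv, ← norm_inv]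
    have h1 : ‖(1 - cexp (2 * π * I * z))⁻¹‖ ≤ |D| := (hD z (by simpa using hz)).trans (le_abs_self _)
    have h2 : Real.exp (-(a * z.im)) ≤ Real.exp 1 := by
      apply Real.exp_le_exp.mpr
      have h3 := Complex.abs_im_le_norm z
      rw [hz] at h3
      obtain ⟨h4, h5⟩ := abs_le.mp h3
      nlinarith
    have := Real.pi_pos
    gcongr
  · rw [norm_inv, hz]
    norm_num

/-- regular part -/
noncomputable def RM (κ : ℂ) (z : ℂ) : ℂ := R0 κ.re z + FS κ z

theorem geom_int {κ : ℂ} (h0 : 0 < κ.re) :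
    HasSum (fun l : ℤ => if l < 0 then cexp (κ * l) else 0) (1 / (cexp κ - 1)) := by
  have hlt : ‖cexp (-κ)‖ < 1 := by
    rw [Complex.norm_exp, Real.exp_lt_one_iff]
    simpa using h0
  have hg := (hasSum_geometric_of_norm_lt_one hlt).mul_left (cexp (-κ))
  obtain ⟨f, hf⟩ : ∃ f : ℤ → ℂ, f = fun l : ℤ => if l < 0 then cexp (κ * l) else 0 := ⟨_, rfl⟩
  rw [← hf]
  have h2 : HasSum (fun n : ℕ => f (-((n : ℤ) + 1))) (cexp (-κ) * (1 - cexp (-κ))⁻¹) := by
    refine hg.congr_fun fun n => ?_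
    have e : (-((n : ℤ) + 1)) < 0 := by omega
    rw [hf]
    simp only [e, if_true]
    rw [← Complex.exp_nat_mul, ← Complex.exp_add]
    congr 1
    push_cast
    ring
  have h1 : HasSum (fun n : ℕ => f (n : ℤ)) 0 := by
    have e : (fun n : ℕ => f (n : ℤ)) = fun _ => 0 := by
      funext n
      have e : ¬ ((n : ℤ) < 0) := by omega
      rw [hf]
      simp only [e, if_false]
    rw [e]
    exact hasSum_zero
  have h3 := HasSum.of_nat_of_neg_add_one h1 h2
  have h4 : cexp κ ≠ 0 := Complex.exp_ne_zero _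
  have h5 : (0 : ℂ) + cexp (-κ) * (1 - cexp (-κ))⁻¹ = 1 / (cexp κ - 1) := by
    rw [zero_add, Complex.exp_neg]
    generalize cexp κ = w at h4
    have h6 : 1 - w⁻¹ = (w - 1) * w⁻¹ := by
      rw [sub_mul, mul_inv_cancel₀ h4, one_mul]
    rw [h6, mul_inv, inv_inv, one_div, mul_comm (w - 1)⁻¹ w, ← mul_assoc, inv_mul_cancel₀ h4,
      one_mul]
  rw [h5] at h3
  exact h3

theorem exp_sub_one_lower {κ : ℂ} (h : ‖κ‖ ≤ 1 / 2) : ‖κ‖ / 2 ≤ ‖cexp κ - 1‖ := by
  have h1 := Complex.norm_exp_sub_one_sub_id_le (x := κ) (by linarith)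
  have h2 : ‖κ‖ ≤ ‖cexp κ - 1‖ + ‖cexp κ - 1 - κ‖ := by
    have := norm_sub_le (cexp κ - 1) (cexp κ - 1 - κ)
    rwa [sub_sub_cancel] at this
  nlinarith [norm_nonneg κ]

theorem main_term {κ z : ℂ} (hk : 0 < ‖κ‖) (hk1 : ‖κ‖ ≤ 1 / 2) (hz : ‖z‖ ≤ 1) :
    ‖cexp (I * κ.re * z) * (1 / (cexp κ - 1)) - 1 / κ‖ ≤ 6 := by
  have hL := exp_sub_one_lower hk1
  have hpos : 0 < ‖cexp κ - 1‖ := lt_of_lt_of_le (by linarith) hL
  have hne : cexp κ - 1 ≠ 0 := norm_pos_iff.mp hpos
  have hκ : κ ≠ 0 := norm_pos_iff.mp hk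
  have e : cexp (I * κ.re * z) * (1 / (cexp κ - 1)) - 1 / κ =
      (cexp (I * κ.re * z) - 1) / (cexp κ - 1) - (cexp κ - 1 - κ) / (κ * (cexp κ - 1)) := by
    field_simp
    ring
  rw [e]
  refine (norm_sub_le _ _).trans ?_
  have hx : ‖I * κ.re * z‖ ≤ ‖κ‖ := by
    rw [norm_mul, norm_mul, norm_I, one_mul, Complex.norm_real, Real.norm_eq_abs]
    calc |κ.re| * ‖z‖ ≤ ‖κ‖ * 1 :=
          mul_le_mul (Complex.abs_re_le_norm κ) hz (norm_nonneg _) (norm_nonneg _)
      _ = ‖κ‖ := mul_one _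
  have h1 : ‖(cexp (I * κ.re * z) - 1) / (cexp κ - 1)‖ ≤ 4 := by
    rw [norm_div, div_le_iff₀ hpos]
    have := Complex.norm_exp_sub_one_le (x := I * κ.re * z) (by linarith)
    linarith
  have h2 : ‖(cexp κ - 1 - κ) / (κ * (cexp κ - 1))‖ ≤ 2 := by
    rw [norm_div, norm_mul, div_le_iff₀ (mul_pos hk hpos)]
    have := Complex.norm_exp_sub_one_sub_id_le (x := κ) (by linarith)
    nlinarith
  linarith

/-- the rows with the leading part of the rows below removed -/
noncomputable def rowT (κ : ℂ) (l : ℤ) (z : ℂ) : ℂ :=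
  (if l = 0 then 0 else row κ l z) +
    2 * π * I * cexp (I * κ.re * z) * (if l < 0 then cexp (κ * l) else 0)

theorem rowT_bound {κ : ℂ} (h0 : 0 < κ.re) (h1 : κ.re ≤ 1) {z : ℂ} (hz : ‖z‖ ≤ 4 / 5) (l : ℤ) :
    ‖rowT κ l z‖ ≤ 4 * π * Real.exp (4 / 5) * Real.exp (-1) ^ l.natAbs := by
  have hpi := Real.pi_pos
  have him : (z - l * I).im = z.im - l := by simp
  have h3 := (Complex.abs_im_le_norm z).trans hz
  obtain ⟨hz1, hz2⟩ := abs_le.mp h3
  rcases lt_trichotomy l 0 with h | h | h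
  · have hl' : (l : ℝ) ≤ -1 := by
      have : l ≤ -1 := by omega
      exact_mod_cast this
    have h2 : 1 / 5 ≤ (z - l * I).im := by rw [him]; linarith
    have e : rowT κ l z = cexp (I * κ.im * l) *
        (Kf κ.re (z - l * I) + 2 * π * I * cexp (I * κ.re * (z - l * I))) := by
      unfold rowT row
      rw [if_neg h.ne, if_pos h, mul_add]
      congr 1
      have e1 : cexp (I * κ.re * z) * cexp (κ * l) =
          cexp (I * κ.im * l) * cexp (I * κ.re * (z - l * I)) := by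
        rw [← Complex.exp_add, ← Complex.exp_add]
        congr 1
        conv_lhs => rw [← Complex.re_add_im κ]
        simp only [Complex.add_re, Complex.ofReal_re, Complex.mul_re, Complex.I_re, mul_zero,
          Complex.ofReal_im, Complex.I_im, mul_one, sub_self, add_zero]
        linear_combination (κ.re * l : ℂ) * (Complex.I_sq)
      linear_combination (2 * π * I : ℂ) * e1
    rw [e, norm_mul, norm_phase, one_mul]
    refine (Kf_up_sub h0.le h2).trans ?_
    rw [him, ← Real.exp_nat_mul, natAbs_cast_neg h.le, mul_assoc (4 * π), ← Real.exp_add]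
    refine mul_le_mul_of_nonneg_left (Real.exp_le_exp.mpr ?_) (by positivity)
    linarith
  · have e : rowT κ l z = 0 := by
      unfold rowT
      rw [if_pos h, if_neg (by omega)]
      simp
    rw [e, norm_zero]
    positivity
  · have hl' : (1 : ℝ) ≤ l := by
      have : 1 ≤ l := by omega
      exact_mod_cast this
    have h2 : (z - l * I).im ≤ -(1 / 5) := by rw [him]; linarith
    have e : rowT κ l z = row κ l z := by
      unfold rowT
      rw [if_neg h.ne', if_neg (by omega)]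
      simp
    rw [e, norm_row]
    refine (Kf_low h1 h2).trans ?_
    rw [him, ← Real.exp_nat_mul, natAbs_cast_pos h.le, mul_assoc (4 * π), ← Real.exp_add]
    refine mul_le_mul_of_nonneg_left (Real.exp_le_exp.mpr ?_) (by positivity)
    linarith

/-- the constant of the remainder -/
noncomputable def CT : ℝ := ∑' l : ℤ, 4 * π * Real.exp (4 / 5) * Real.exp (-1) ^ l.natAbs

theorem summable_CT :
    Summable (fun l : ℤ => 4 * π * Real.exp (4 / 5) * Real.exp (-1) ^ l.natAbs) := by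
  refine (summable_zpow (Real.exp_pos _).le ?_).mul_left _
  rw [Real.exp_lt_one_iff]
  norm_num

theorem CT_nonneg : 0 ≤ CT := tsum_nonneg fun l => by have := Real.pi_pos; positivity

theorem FS_eq {κ : ℂ} (h0 : 0 < κ.re) (h1 : κ.re ≤ 1) {z : ℂ} (hz : ‖z‖ ≤ 4 / 5) :
    FS κ z = (∑' l : ℤ, rowT κ l z) -
      2 * π * I * (cexp (I * κ.re * z) * (1 / (cexp κ - 1))) := by
  have hs : Summable (fun l : ℤ => rowT κ l z) :=
    Summable.of_norm_bounded summable_CT (rowT_bound h0 h1 hz)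
  have hg := (geom_int h0).mul_left (2 * π * I * cexp (I * κ.re * z))
  have h := hs.hasSum.sub hg
  have e : FS κ z = ∑' l : ℤ, (rowT κ l z -
      2 * π * I * cexp (I * κ.re * z) * (if l < 0 then cexp (κ * l) else 0)) := by
    unfold FS rowT
    congr 1
    funext l
    rw [add_sub_cancel_right]
  rw [e, h.tsum_eq]
  ring

theorem FS_bound {κ : ℂ} (h0 : 0 < κ.re) (hk1 : ‖κ‖ ≤ 1 / 2) {z : ℂ} (hz : ‖z‖ ≤ 4 / 5) :
    ‖FS κ z + 2 * π * I / κ‖ ≤ CT + 12 * π := by
  have hpi := Real.pi_pos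
  have hre : κ.re ≤ ‖κ‖ := Complex.re_le_norm κ
  have hk : 0 < ‖κ‖ := lt_of_lt_of_le h0 hre
  have h1 : κ.re ≤ 1 := by linarith
  rw [FS_eq h0 h1 hz]
  have e : (∑' l : ℤ, rowT κ l z) - 2 * π * I * (cexp (I * κ.re * z) * (1 / (cexp κ - 1))) +
      2 * π * I / κ = (∑' l : ℤ, rowT κ l z) -
        2 * π * I * (cexp (I * κ.re * z) * (1 / (cexp κ - 1)) - 1 / κ) := by
    ring
  rw [e]
  refine (norm_sub_le _ _).trans (add_le_add ?_ ?_)
  · exact tsum_of_norm_bounded summable_CT.hasSum (rowT_bound h0 h1 hz)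
  · rw [norm_mul]
    have e2 : ‖(2 * π * I : ℂ)‖ = 2 * π := by simp [abs_of_pos Real.pi_pos]
    rw [e2]
    have := main_term hk hk1 (by linarith : ‖z‖ ≤ 1)
    calc 2 * π * ‖cexp (I * κ.re * z) * (1 / (cexp κ - 1)) - 1 / κ‖ ≤ 2 * π * 6 :=
          mul_le_mul_of_nonneg_left this (by positivity)
      _ = 12 * π := by ring

end FB.Lat
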