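import Pool.Agent.FB.Lat.Kern
import Pool.Agent.FB.Lat.Basic

/-!
# The sum over the rows of the lattice

`row κ l z = e^{i κ.im l} Kf κ.re (z - l i)`, `F κ z = Σ_l row κ l z`.
-/

open Complex Set Metric Filter Topology
open scoped ComplexConjugate Real

namespace FB.Lat

/-- the `l`-th row -/
noncomputable def row (κ : ℂ) (l : ℤ) (z : ℂ) : ℂ :=
  cexp (I * κ.im * l) * Kf κ.re (z - l * I)

/-- the sum of all rows -/
noncomputable def FM (κ : ℂ) (z : ℂ) : ℂ := ∑' l : ℤ, row κ l z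

/-- the sum of all rows except the central one -/
noncomputable def FS (κ : ℂ) (z : ℂ) : ℂ := ∑' l : ℤ, if l = 0 then 0 else row κ l z

theorem norm_phase (x : ℝ) (l : ℤ) : ‖cexp (I * x * l)‖ = 1 := by
  rw [Complex.norm_exp]
  simp

theorem norm_row (κ : ℂ) (l : ℤ) (z : ℂ) : ‖row κ l z‖ = ‖Kf κ.re (z - l * I)‖ := by
  unfold row
  rw [norm_mul, norm_phase, one_mul]

theorem summable_zpow {r : ℝ} (h0 : 0 ≤ r) (h1 : r < 1) :
    Summable (fun l : ℤ => r ^ l.natAbs) := by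
  have hg := summable_geometric_of_lt_one h0 h1
  refine Summable.of_nat_of_neg_add_one ?_ ?_
  · simpa using hg
  · have h2 : Summable (fun n : ℕ => r ^ (n + 1)) := (summable_nat_add_iff 1).mpr hg
    refine h2.congr fun n => ?_
    have e : (-((n : ℤ) + 1)).natAbs = n + 1 := by omega
    rw [e]

theorem natAbs_cast_pos {l : ℤ} (h : 0 ≤ l) : ((l.natAbs : ℕ) : ℝ) = (l : ℝ) := by
  rw [Nat.cast_natAbs, abs_of_nonneg h]

theorem natAbs_cast_neg {l : ℤ} (h : l ≤ 0) : ((l.natAbs : ℕ) : ℝ) = -(l : ℝ) := by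
  rw [Nat.cast_natAbs, abs_of_nonpos h, Int.cast_neg]

/-- bound of a far row -/
theorem row_far {κ : ℂ} (h0 : 0 < κ.re) (h1 : κ.re ≤ 1) {B : ℝ} (hB : 0 ≤ B) {l : ℤ} (hl : B + 1 ≤ |(l : ℝ)|)
    {z : ℂ} (hz : |z.im| ≤ B) :
    ‖row κ l z‖ ≤ 4 * π * Real.exp B * Real.exp (-κ.re) ^ l.natAbs := by
  rw [norm_row]
  have him : (z - l * I).im = z.im - l := by simp
  obtain ⟨hz1, hz2⟩ := abs_le.mp hz
  have hpi := Real.pi_pos
  rcases le_total 0 l with h | h
  · have hl' : (0 : ℝ) ≤ l := by exact_mod_cast h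
    rw [abs_of_nonneg hl'] at hl
    have h2 : (z - l * I).im ≤ -(1 / 5) := by rw [him]; linarith
    refine (Kf_low h1 h2).trans ?_
    rw [him, ← Real.exp_nat_mul, natAbs_cast_pos h, mul_assoc (4 * π), ← Real.exp_add]
    refine mul_le_mul_of_nonneg_left (Real.exp_le_exp.mpr ?_) (by positivity)
    nlinarith
  · have hl' : (l : ℝ) ≤ 0 := by exact_mod_cast h
    rw [abs_of_nonpos hl'] at hl
    have h2 : 1 / 5 ≤ (z - l * I).im := by rw [him]; linarith
    refine (Kf_up (a := κ.re) h2).trans ?_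
    rw [him, ← Real.exp_nat_mul, natAbs_cast_neg h, mul_assoc (4 * π), ← Real.exp_add]
    refine mul_le_mul_of_nonneg_left (Real.exp_le_exp.mpr ?_) (by positivity)
    nlinarith

theorem summable_far {κ : ℂ} (h0 : 0 < κ.re) (B : ℝ) :
    Summable (fun l : ℤ => 4 * π * Real.exp B * Real.exp (-κ.re) ^ l.natAbs) := by
  refine (summable_zpow (Real.exp_pos _).le ?_).mul_left _
  rw [Real.exp_lt_one_iff]
  linarith

theorem eventually_far (B : ℝ) : ∀ᶠ l : ℤ in cofinite, B + 1 ≤ |(l : ℝ)| := by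
  have hfin : {l : ℤ | ¬ (B + 1 ≤ |(l : ℝ)|)}.Finite := by
    refine (Set.finite_Icc (-⌈B + 1⌉) ⌈B + 1⌉).subset fun l hl => ?_
    have h1 : |(l : ℝ)| < B + 1 := not_le.mp hl
    obtain ⟨h2, h3⟩ := abs_lt.mp h1
    have h4 : (l : ℝ) ≤ (⌈B + 1⌉ : ℤ) := h3.le.trans (Int.le_ceil _)
    have h5 : -((⌈B + 1⌉ : ℤ) : ℝ) ≤ l := by
      have := Int.le_ceil (B + 1)
      linarith
    constructor
    · exact_mod_cast h5
    · exact_mod_cast h4
  exact Filter.eventually_cofinite.mpr hfin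

theorem summable_row {κ : ℂ} (h0 : 0 < κ.re) (h1 : κ.re ≤ 1) (z : ℂ) :
    Summable (fun l : ℤ => row κ l z) := by
  refine Summable.of_norm_bounded_eventually (summable_far h0 |z.im|) ?_
  filter_upwards [eventually_far |z.im|] with l hl
  exact row_far h0 h1 (abs_nonneg _) hl le_rfl

theorem ne_of_US {z : ℂ} (hz : z ∈ US 0) (l n : ℤ) : z - l * I ≠ n := by
  intro h
  have h1 := hz (n, l)
  rw [norm_pos_iff, sub_ne_zero] at h1
  apply h1
  rw [lp]
  linear_combination h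

theorem ne_of_ball {z : ℂ} (hz : ‖z‖ < 1) {l : ℤ} (hl : l ≠ 0) (n : ℤ) : z - l * I ≠ n := by
  intro h
  have h1 : z.im = l := by
    have := congrArg Complex.im h
    simp at this
    linarith
  have h2 : (1 : ℝ) ≤ |(l : ℝ)| := by
    have : (1 : ℤ) ≤ |l| := Int.one_le_abs hl
    exact_mod_cast this
  have h3 := Complex.abs_im_le_norm z
  rw [h1] at h3
  linarith

theorem row_diffAt (κ : ℂ) {l : ℤ} {z : ℂ} (h : ∀ n : ℤ, z - l * I ≠ n) :
    DifferentiableAt ℂ (row κ l) z := by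
  unfold row
  refine (differentiableAt_const _).mul ?_
  exact DifferentiableAt.comp z (Kf_diffAt κ.re h) (by fun_prop)

theorem bdd_im {K : Set ℂ} (hK : IsCompact K) : ∃ B : ℝ, 0 ≤ B ∧ ∀ z ∈ K, |z.im| ≤ B := by
  obtain ⟨B, hB⟩ := hK.exists_bound_of_continuousOn (f := fun z : ℂ => z.im) continuous_im.continuousOn
  exact ⟨max B 0, le_max_right _ _, fun z hz => (hB z hz).trans (le_max_left _ _)⟩

theorem FM_diff {κ : ℂ} (h0 : 0 < κ.re) (h1 : κ.re ≤ 1) : DifferentiableOn ℂ (FM κ) (US 0) := by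
  refine SummableLocallyUniformlyOn.differentiableOn (f := fun l : ℤ => row κ l) isOpen_US_zero ?_ ?_
  · refine SummableLocallyUniformlyOn.of_locally_bounded_eventually isOpen_US_zero fun K _ hK => ?_
    obtain ⟨B, hB0, hB⟩ := bdd_im hK
    refine ⟨_, summable_far h0 B, ?_⟩
    filter_upwards [eventually_far B] with l hl z hz
    exact row_far h0 h1 hB0 hl (hB z hz)
  · intro l z hz
    exact row_diffAt κ (ne_of_US hz l)

theorem FS_diff {κ : ℂ} (h0 : 0 < κ.re) (h1 : κ.re ≤ 1) :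
    DifferentiableOn ℂ (FS κ) (ball 0 1) := by
  refine SummableLocallyUniformlyOn.differentiableOn
    (f := fun l : ℤ => fun z => if l = 0 then 0 else row κ l z) isOpen_ball ?_ ?_
  · refine SummableLocallyUniformlyOn.of_locally_bounded_eventually isOpen_ball fun K _ hK => ?_
    obtain ⟨B, hB0, hB⟩ := bdd_im hK
    refine ⟨_, summable_far h0 B, ?_⟩
    filter_upwards [eventually_far B] with l hl z hz
    by_cases h : l = 0
    · rw [if_pos h, norm_zero]
      have := Real.exp_pos (-κ.re)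
      have := Real.pi_pos
      positivity
    · rw [if_neg h]
      exact row_far h0 h1 hB0 hl (hB z hz)
  · intro l z hz
    by_cases h : l = 0
    · simp only [h, if_true]
      exact differentiableAt_const _
    · simp only [h, if_false]
      exact row_diffAt κ (ne_of_ball (by simpa using hz) h)

theorem FM_eq {κ : ℂ} (h0 : 0 < κ.re) (h1 : κ.re ≤ 1) (z : ℂ) :
    FM κ z = Kf κ.re z + FS κ z := by
  rw [FM, FS, (summable_row h0 h1 z).tsum_eq_add_tsum_ite 0]
  congr 1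
  unfold row
  simp

theorem row_shift (κ : ℂ) (l : ℤ) (z : ℂ) (p : ℤ × ℤ) :
    row κ l (z + lp p) = chi κ p * row κ (l - p.2) z := by
  unfold row
  have e1 : z + lp p - l * I = (z - ((l - p.2 : ℤ) : ℂ) * I) + (p.1 : ℤ) := by
    rw [lp]
    push_cast
    ring
  rw [e1, Kf_add_int, ← mul_assoc, ← mul_assoc, chi, ← Complex.exp_add, ← Complex.exp_add]
  congr 2
  push_cast
  ring

theorem FM_bloch (κ z : ℂ) (p : ℤ × ℤ) : FM κ (z + lp p) = chi κ p * FM κ z := by
  unfold FM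
  simp_rw [row_shift]
  rw [tsum_mul_left]
  congr 1
  exact (Equiv.subRight p.2).tsum_eq (fun l => row κ l z)

end FB.Lat
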